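import Mathlib

set_option autoImplicit false

open scoped BigOperators
open Finset

namespace Pool.Agent.H4R2

/-- Sites of the `L × L` torus. -/
abbrev Site (L : ℕ) : Type := ZMod L × ZMod L

/-- The point of the `L × L` torus below the lattice point `x ∈ ℤ²`. -/
def toTorus (L : ℕ) (x : ℤ × ℤ) : Site L := ((x.1 : ZMod L), (x.2 : ZMod L))

/-- Squared Hilbert-space norm of a vector of amplitudes. -/
noncomputable def normSq {S : Type*} [Fintype S] (ψ : S → ℂ) : ℝ := ∑ s, ‖ψ s‖ ^ 2

/-- `Ker j a b s t`: on the sites `j x` the configuration `s` reads `a` and the configuration `t`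
reads `b`, and `s`, `t` agree on all other sites. -/
def Ker {V ι : Type*} {d : ℕ} (j : ι → V) (a b : ι → Fin d) (s t : V → Fin d) : Prop :=
  (∀ x, s (j x) = a x) ∧ (∀ x, t (j x) = b x) ∧ (∀ v, (∀ x, j x ≠ v) → s v = t v)

open Classical in
/-- Reduced density matrix of the (not necessarily normalised) vector `ψ` on the sites `j x`,
`x : ι`: configurations are maps `V → Fin d`, and all sites outside the range of `j` are traced
out. -/
noncomputable def rdm {V ι : Type*} [Fintype V] [DecidableEq V] {d : ℕ} (j : ι → V)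
    (ψ : (V → Fin d) → ℂ) : Matrix (ι → Fin d) (ι → Fin d) ℂ :=
  fun a b => ∑ s : V → Fin d, ∑ t : V → Fin d,
    if Ker j a b s t then ψ s * (starRingEnd ℂ) (ψ t) else 0

/-- Contraction on the `L × L` torus of a translationally invariant tensor network with virtual index
set `K`; the arguments of `A` are the physical index and the left, right, up and down virtual
indices. The index of the edge to the right of `x` is `h x`, that of the edge above `x` is `v x`. -/
noncomputable def contract {K : Type*} [Fintype K] {d : ℕ} (A : Fin d → K → K → K → K → ℂ)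
    (L : ℕ) [NeZero L] : (Site L → Fin d) → ℂ := fun s =>
  ∑ h : Site L → K, ∑ v : Site L → K,
    ∏ x : Site L, A (s x) (h (x.1 - 1, x.2)) (h x) (v x) (v (x.1, x.2 - 1))

/-- Trace norm `tr √(Xᴴ X)` (sum of the singular values). -/
noncomputable def traceNorm {n : Type*} [Fintype n] [DecidableEq n] (X : Matrix n n ℂ) : ℝ :=
  ∑ i, Real.sqrt ((Matrix.isHermitian_conjTranspose_mul_self X).eigenvalues i)

open Classical in
/-- The translate by `u` of the interaction `h` (an operator on the finitely many sites `B ⊂ ℤ²`),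
as an operator on the torus. -/
noncomputable def term {d : ℕ} (B : Finset (ℤ × ℤ)) (h : Matrix (B → Fin d) (B → Fin d) ℂ) (L : ℕ)
    (u : Site L) : Matrix (Site L → Fin d) (Site L → Fin d) ℂ := fun s t =>
  if ∀ v, (∀ x : B, toTorus L x + u ≠ v) → s v = t v then
    h (fun x => s (toTorus L x + u)) (fun x => t (toTorus L x + u)) else 0

/-- The Hamiltonian on the `L × L` torus: the sum of all translates of `h`. -/
noncomputable def ham {d : ℕ} (B : Finset (ℤ × ℤ)) (h : Matrix (B → Fin d) (B → Fin d) ℂ) (L : ℕ)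
    [NeZero L] : Matrix (Site L → Fin d) (Site L → Fin d) ℂ := ∑ u : Site L, term B h L u

/-- `ψ` spans the ground space of `H`: its eigenvalue `E` is simple and every other eigenvalue is at
least `E + Δ`. -/
def IsGappedGround {n : Type*} [Fintype n] (H : Matrix n n ℂ) (Δ : ℝ) (ψ : n → ℂ) : Prop :=
  ∃ E : ℝ, H.mulVec ψ = (E : ℂ) • ψ ∧ (∀ φ, H.mulVec φ = (E : ℂ) • φ → ∃ c : ℂ, φ = c • ψ) ∧
    ∀ (E' : ℝ) (φ : n → ℂ), φ ≠ 0 → H.mulVec φ = (E' : ℂ) • φ → E' = E ∨ E + Δ ≤ E'

/-- A gapped family with unique ground state: for all large `L`, `ψ L` is the normalised ground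
state of the Hamiltonian on the `L × L` torus, with a spectral gap bounded below independently of
`L`. -/
def GappedFamily {d : ℕ} (B : Finset (ℤ × ℤ)) (h : Matrix (B → Fin d) (B → Fin d) ℂ)
    (ψ : ∀ (L : ℕ) [NeZero L], (Site L → Fin d) → ℂ) : Prop :=
  ∃ Δ : ℝ, 0 < Δ ∧ ∃ L₁ : ℕ, ∀ (L : ℕ) [NeZero L], L₁ ≤ L →
    normSq (ψ L) = 1 ∧ IsGappedGround (ham B h L) Δ (ψ L)

/-- A PEPS tensor of bond dimension `D`: physical index, then the left, right, up and down virtual
indices. Its vector on the `L × L` torus is `contract A L`. -/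
abbrev Tensor (d D : ℕ) : Type := Fin d → Fin D → Fin D → Fin D → Fin D → ℂ

/-- Reduced density matrix on the region `R` of the normalisation of `φ` (a vector on the torus). -/
noncomputable def redState {d L : ℕ} [NeZero L] (R : Finset (ℤ × ℤ)) (φ : (Site L → Fin d) → ℂ) :
    Matrix (R → Fin d) (R → Fin d) ℂ :=
  ((normSq φ : ℝ) : ℂ)⁻¹ • rdm (fun x : R => toTorus L x) φ

/-- The radius of the region around the origin. -/
def rad (R : Finset (ℤ × ℤ)) : ℕ := R.sup (fun x => max x.1.natAbs x.2.natAbs)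

/-- The side of the blocks. -/
noncomputable def side (d : ℕ) (R : Finset (ℤ × ℤ)) (ε : ℝ) : ℕ :=
  ⌈16 * ((rad R : ℝ) + 2) * (d : ℝ) ^ (2 * R.card) / ε⌉₊ + 2 * R.card + 2 * rad R + 2

/-- The bond dimension `g(ε, R) = (M + 3)² d^(M²)`, where `M = side d R ε` is of order `1 / ε` for
fixed `R`. It depends on `d`, `R` and `ε` only. -/
noncomputable def bondDim (d : ℕ) (R : Finset (ℤ × ℤ)) (ε : ℝ) : ℕ :=
  (side d R ε + 3) ^ 2 * d ^ (side d R ε ^ 2)

end Pool.Agent.H4R2
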