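import Mathlib
import Pool.Agent.H4R2.Defs

set_option autoImplicit false

open scoped BigOperators
open Finset

namespace Pool.Agent.H4R2

section general

variable {V ι : Type*} {d : ℕ}

lemma Ker.unique_right {j : ι → V} {a b : ι → Fin d} {s t t' : V → Fin d}
    (h : Ker j a b s t) (h' : Ker j a b s t') : t = t' := by
  funext v
  by_cases hv : ∃ x, j x = v
  · obtain ⟨x, rfl⟩ := hv
    rw [h.2.1 x, h'.2.1 x]
  · push Not at hv
    rw [← h.2.2 v hv, ← h'.2.2 v hv]

lemma Ker.unique_left {j : ι → V} {a b : ι → Fin d} {s s' t : V → Fin d}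
    (h : Ker j a b s t) (h' : Ker j a b s' t) : s = s' := by
  funext v
  by_cases hv : ∃ x, j x = v
  · obtain ⟨x, rfl⟩ := hv
    rw [h.1 x, h'.1 x]
  · push Not at hv
    rw [h.2.2 v hv, h'.2.2 v hv]

variable [Fintype V] [DecidableEq V]

open Classical in
lemma rdm_apply (j : ι → V) (ψ : (V → Fin d) → ℂ) (a b : ι → Fin d) :
    rdm j ψ a b = ∑ s : V → Fin d, ∑ t : V → Fin d,
      if Ker j a b s t then ψ s * (starRingEnd ℂ) (ψ t) else 0 := rfl

lemma normSq_nonneg {S : Type*} [Fintype S] (ψ : S → ℂ) : 0 ≤ normSq ψ :=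
  Finset.sum_nonneg (fun _ _ => by positivity)

lemma rdm_bound (j : ι → V) (ψ : (V → Fin d) → ℂ) (a b : ι → Fin d) :
    ‖rdm j ψ a b‖ ≤ normSq ψ := by
  classical
  rw [rdm_apply]
  have h1 : ‖∑ s : V → Fin d, ∑ t : V → Fin d,
      if Ker j a b s t then ψ s * (starRingEnd ℂ) (ψ t) else 0‖ ≤
      ∑ s : V → Fin d, ∑ t : V → Fin d,
        ((if Ker j a b s t then ‖ψ s‖ ^ 2 / 2 else 0) + (if Ker j a b s t then ‖ψ t‖ ^ 2 / 2 else 0)) := by
    refine (norm_sum_le _ _).trans (Finset.sum_le_sum fun s _ => ?_)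
    refine (norm_sum_le _ _).trans (Finset.sum_le_sum fun t _ => ?_)
    split_ifs
    · rw [norm_mul, RCLike.norm_conj]
      nlinarith [sq_nonneg (‖ψ s‖ - ‖ψ t‖)]
    · simp
  refine h1.trans ?_
  simp_rw [Finset.sum_add_distrib]
  have h2 : ∑ s : V → Fin d, ∑ t : V → Fin d, (if Ker j a b s t then ‖ψ s‖ ^ 2 / 2 else 0)
      ≤ ∑ s : V → Fin d, ‖ψ s‖ ^ 2 / 2 := by
    refine Finset.sum_le_sum fun s _ => ?_
    by_cases hs : ∃ t, Ker j a b s t
    · obtain ⟨t, ht⟩ := hs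
      rw [Finset.sum_eq_single t]
      · rw [if_pos ht]
      · intro t' _ hne
        rw [if_neg]
        intro h'
        exact hne (h'.unique_right ht)
      · intro hc; exact absurd (Finset.mem_univ _) hc
    · push Not at hs
      rw [Finset.sum_eq_zero (fun t _ => by rw [if_neg (hs t)])]
      positivity
  have h3 : ∑ s : V → Fin d, ∑ t : V → Fin d, (if Ker j a b s t then ‖ψ t‖ ^ 2 / 2 else 0)
      ≤ ∑ t : V → Fin d, ‖ψ t‖ ^ 2 / 2 := by
    rw [Finset.sum_comm]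
    refine Finset.sum_le_sum fun t _ => ?_
    by_cases hs : ∃ s, Ker j a b s t
    · obtain ⟨s, ht⟩ := hs
      rw [Finset.sum_eq_single s]
      · rw [if_pos ht]
      · intro t' _ hne
        rw [if_neg]
        intro h'
        exact hne (h'.unique_left ht)
      · intro hc; exact absurd (Finset.mem_univ _) hc
    · push Not at hs
      rw [Finset.sum_eq_zero (fun t _ => by rw [if_neg (hs t)])]
      positivity
  have h4 : ∑ s : V → Fin d, ‖ψ s‖ ^ 2 / 2 + ∑ s : V → Fin d, ‖ψ s‖ ^ 2 / 2 = normSq ψ := by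
    rw [← Finset.sum_div]
    unfold normSq
    ring
  linarith

lemma rdm_smul (j : ι → V) (c : ℂ) (ψ : (V → Fin d) → ℂ) (a b : ι → Fin d) :
    rdm j (c • ψ) a b = (‖c‖ ^ 2 : ℝ) * rdm j ψ a b := by
  classical
  rw [rdm_apply, rdm_apply, Finset.mul_sum]
  refine Finset.sum_congr rfl fun s _ => ?_
  rw [Finset.mul_sum]
  refine Finset.sum_congr rfl fun t _ => ?_
  split_ifs
  · simp only [Pi.smul_apply, smul_eq_mul, map_mul]
    have : (‖c‖ ^ 2 : ℝ) = (c * (starRingEnd ℂ) c : ℂ) := by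
      rw [Complex.mul_conj, Complex.normSq_eq_norm_sq]
    rw [this]; ring
  · simp

lemma normSq_smul {S : Type*} [Fintype S] (c : ℂ) (ψ : S → ℂ) :
    normSq (c • ψ) = ‖c‖ ^ 2 * normSq ψ := by
  unfold normSq
  rw [Finset.mul_sum]
  refine Finset.sum_congr rfl fun s _ => ?_
  simp [mul_pow]

/-- transport by a permutation (or bijection) of the sites -/
lemma rdm_comp_equiv {V' : Type*} [Fintype V'] [DecidableEq V'] (σ : V ≃ V') (j : ι → V')
    (ψ : (V → Fin d) → ℂ) (a b : ι → Fin d) :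
    rdm j (fun s : V' → Fin d => ψ (s ∘ σ)) a b = rdm (σ.symm ∘ j) ψ a b := by
  classical
  rw [rdm_apply, rdm_apply]
  let E : (V' → Fin d) ≃ (V → Fin d) := Equiv.arrowCongr σ.symm (Equiv.refl _)
  refine Fintype.sum_equiv E _ _ fun s => ?_
  refine Fintype.sum_equiv E _ _ fun t => ?_
  have hE : ∀ s : V' → Fin d, E s = s ∘ σ := by
    intro s; rfl
  rw [hE, hE]
  have : Ker j a b s t ↔ Ker (σ.symm ∘ j) a b (s ∘ σ) (t ∘ σ) := by
    unfold Ker
    simp only [Function.comp, Equiv.apply_symm_apply]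
    refine and_congr Iff.rfl (and_congr Iff.rfl ?_)
    constructor
    · intro h v hv
      apply h
      intro x hx
      apply hv x
      rw [hx]; simp
    · intro h v hv
      have := h (σ.symm v) (fun x hx => hv x (σ.symm.injective hx))
      simpa using this
  simp only [this]

lemma normSq_comp_equiv {V' : Type*} [Fintype V'] [DecidableEq V'] (σ : V ≃ V') (ψ : (V → Fin d) → ℂ) :
    normSq (fun s : V' → Fin d => ψ (s ∘ σ)) = normSq ψ := by
  unfold normSq
  let E : (V' → Fin d) ≃ (V → Fin d) := Equiv.arrowCongr σ.symm (Equiv.refl _)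
  have h := Fintype.sum_equiv E (fun s : V' → Fin d => ‖ψ (s ∘ σ)‖ ^ 2)
    (fun s : V → Fin d => ‖ψ s‖ ^ 2) (fun s => rfl)
  exact h

/-- reduced density matrix and norm of an orthogonal sum -/
lemma rdm_sum {P : Type*} [Fintype P] (j : ι → V) (Ω : P → (V → Fin d) → ℂ)
    (hΩ : ∀ p p', p ≠ p' → ∃ v, (∀ x, j x ≠ v) ∧ ∃ y y', y ≠ y' ∧
      (∀ s, Ω p s ≠ 0 → s v = y) ∧ (∀ s, Ω p' s ≠ 0 → s v = y')) (a b : ι → Fin d) :
    rdm j (fun s => ∑ p, Ω p s) a b = ∑ p, rdm j (Ω p) a b := by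
  classical
  simp_rw [rdm_apply]
  symm
  rw [Finset.sum_comm]
  refine Finset.sum_congr rfl fun s _ => ?_
  rw [Finset.sum_comm]
  refine Finset.sum_congr rfl fun t _ => ?_
  by_cases hK : Ker j a b s t
  · simp only [hK, if_true, map_sum]
    rw [Finset.sum_mul]
    refine Finset.sum_congr rfl fun p _ => ?_
    symm
    rw [Finset.mul_sum, Finset.sum_eq_single p]
    · intro p' _ hne
      by_contra hc
      have h1 : Ω p s ≠ 0 := fun h0 => hc (by rw [h0, zero_mul])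
      have h2 : Ω p' t ≠ 0 := fun h0 => hc (by rw [h0, map_zero, mul_zero])
      obtain ⟨v, hv, y, y', hyy, hy, hy'⟩ := hΩ p p' hne.symm
      have := hK.2.2 v hv
      rw [hy s h1, hy' t h2] at this
      exact hyy this
    · intro hc; exact absurd (Finset.mem_univ _) hc
  · simp [hK]

lemma normSq_sum {P : Type*} [Fintype P] (Ω : P → (V → Fin d) → ℂ)
    (hΩ : ∀ p p', p ≠ p' → ∃ v : V, ∃ y y' : Fin d, y ≠ y' ∧
      (∀ s, Ω p s ≠ 0 → s v = y) ∧ (∀ s, Ω p' s ≠ 0 → s v = y')) :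
    normSq (fun s => ∑ p, Ω p s) = ∑ p, normSq (Ω p) := by
  classical
  unfold normSq
  rw [Finset.sum_comm]
  refine Finset.sum_congr rfl fun s _ => ?_
  by_cases hs : ∃ p, Ω p s ≠ 0
  · obtain ⟨p, hp⟩ := hs
    have hz : ∀ p', p' ≠ p → Ω p' s = 0 := by
      intro p' hne
      by_contra hc
      obtain ⟨v, y, y', hyy, hy, hy'⟩ := hΩ p p' hne.symm
      exact hyy (by rw [← hy s hp, ← hy' s hc])
    change ‖∑ p, Ω p s‖ ^ 2 = ∑ p, ‖Ω p s‖ ^ 2
    rw [Finset.sum_eq_single p (fun p' _ h => hz p' h) (by simp),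
      Finset.sum_eq_single p (fun p' _ h => by rw [hz p' h]; simp) (by simp)]
  · push Not at hs
    change ‖∑ p, Ω p s‖ ^ 2 = ∑ p, ‖Ω p s‖ ^ 2
    simp [hs]

end general

end Pool.Agent.H4R2
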