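import Mathlib
import Pool.Agent.H4R2.Rdm

set_option autoImplicit false
set_option linter.unusedSectionVars false

open scoped BigOperators
open Finset

namespace Pool.Agent.H4R2

section block

variable {V E C W : Type*} {d : ℕ}

/-- glue a configuration outside of the blocks and configurations of the blocks -/
def glue (e : V ≃ E ⊕ (C × W)) (n : E → Fin d) (σ : C → W → Fin d) : V → Fin d :=
  fun v => Sum.elim n (fun cw => σ cw.1 cw.2) (e v)

@[simp] lemma glue_inl (e : V ≃ E ⊕ (C × W)) (n : E → Fin d) (σ : C → W → Fin d) (x : E) :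
    glue e n σ (e.symm (Sum.inl x)) = n x := by simp [glue]

@[simp] lemma glue_inr (e : V ≃ E ⊕ (C × W)) (n : E → Fin d) (σ : C → W → Fin d) (c : C) (w : W) :
    glue e n σ (e.symm (Sum.inr (c, w))) = σ c w := by simp [glue]

/-- the bijection behind `glue` -/
def glueEquiv (e : V ≃ E ⊕ (C × W)) : ((E → Fin d) × (C → W → Fin d)) ≃ (V → Fin d) where
  toFun x := glue e x.1 x.2
  invFun s := (fun x => s (e.symm (Sum.inl x)), fun c w => s (e.symm (Sum.inr (c, w))))
  left_inv x := by
    apply Prod.ext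
    · funext y; simp
    · funext c w; simp
  right_inv s := by
    funext v
    simp only [glue]
    rcases h : e v with y | ⟨c, w⟩
    · simp only [Sum.elim_inl]; rw [← h]; simp
    · simp only [Sum.elim_inr]; rw [← h]; simp

variable [Fintype V] [DecidableEq V] [Fintype E] [DecidableEq E] [Fintype C] [DecidableEq C]
  [Fintype W] [DecidableEq W]

lemma sum_glue {M : Type*} [AddCommMonoid M] (e : V ≃ E ⊕ (C × W)) (F : (V → Fin d) → M) :
    ∑ s, F s = ∑ n : E → Fin d, ∑ σ : C → W → Fin d, F (glue e n σ) := by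
  rw [← Fintype.sum_prod_type' (f := fun n σ => F (glue e n σ))]
  exact (Fintype.sum_equiv (glueEquiv e) (fun x => F (glue e x.1 x.2)) F (fun x => rfl)).symm

lemma sum_sum_prod {X : Type*} [Fintype X] (g : C → X → X → ℂ) :
    ∑ σ : C → X, ∑ τ : C → X, ∏ c, g c (σ c) (τ c) = ∏ c, ∑ x, ∑ y, g c x y := by
  have h1 : ∀ c, ∑ x, ∑ y, g c x y = ∑ z : X × X, g c z.1 z.2 := by
    intro c
    rw [Fintype.sum_prod_type]
  simp_rw [h1]
  rw [Finset.prod_univ_sum]
  rw [Fintype.piFinset_univ]
  have h2 : ∑ σ : C → X, ∑ τ : C → X, ∏ c, g c (σ c) (τ c)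
      = ∑ x : (C → X) × (C → X), ∏ c, g c (x.1 c) (x.2 c) := by
    rw [Fintype.sum_prod_type]
  rw [h2]
  exact Fintype.sum_equiv (Equiv.arrowProdEquivProdArrow C (fun _ => X) (fun _ => X)).symm
    (fun x => ∏ c, g c (x.1 c) (x.2 c)) (fun x => ∏ c, g c (x c).1 (x c).2) (fun x => rfl)

/-- product vector: fixed values `f` outside the blocks, block state `Φ` on each block -/
noncomputable def prodVec (e : V ≃ E ⊕ (C × W)) (f : E → Fin d) (Φ : (W → Fin d) → ℂ) :
    (V → Fin d) → ℂ :=
  fun s => (if (fun x => s (e.symm (Sum.inl x))) = f then 1 else 0) *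
    ∏ c, Φ (fun w => s (e.symm (Sum.inr (c, w))))

lemma prodVec_glue (e : V ≃ E ⊕ (C × W)) (f : E → Fin d) (Φ : (W → Fin d) → ℂ)
    (n : E → Fin d) (σ : C → W → Fin d) :
    prodVec e f Φ (glue e n σ) = (if n = f then 1 else 0) * ∏ c, Φ (σ c) := by
  unfold prodVec
  simp

lemma normSq_prodVec (e : V ≃ E ⊕ (C × W)) (f : E → Fin d) (Φ : (W → Fin d) → ℂ)
    (hΦ : normSq Φ = 1) : normSq (prodVec e f Φ) = 1 := by
  unfold normSq
  rw [sum_glue e]
  have h1 : ∀ n : E → Fin d, ∑ σ : C → W → Fin d, ‖prodVec e f Φ (glue e n σ)‖ ^ 2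
      = if n = f then 1 else 0 := by
    intro n
    by_cases hn : n = f
    · simp only [prodVec_glue, hn, if_true, one_mul, norm_prod, ← Finset.prod_pow]
      have := Finset.prod_univ_sum (fun _ : C => (univ : Finset (W → Fin d)))
        (fun _ x => ‖Φ x‖ ^ 2)
      rw [Fintype.piFinset_univ] at this
      rw [← this]
      have h2 : ∑ x, ‖Φ x‖ ^ 2 = 1 := hΦ
      simp [h2]
    · simp [prodVec_glue, hn]
  simp_rw [h1]
  simp

lemma ker_glue {ι : Type*} (e : V ≃ E ⊕ (C × W)) (c₀ : C) (j' : ι → W) (a b : ι → Fin d)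
    (n n' : E → Fin d) (σ τ : C → W → Fin d) :
    Ker (fun x => e.symm (Sum.inr (c₀, j' x))) a b (glue e n σ) (glue e n' τ) ↔
      n = n' ∧ ∀ c, (c = c₀ → Ker j' a b (σ c) (τ c)) ∧ (c ≠ c₀ → σ c = τ c) := by
  unfold Ker
  simp only [glue_inr]
  constructor
  · rintro ⟨h1, h2, h3⟩
    refine ⟨?_, ?_⟩
    · funext x
      have := h3 (e.symm (Sum.inl x)) (by
        intro y hy
        have := e.symm.injective hy
        simp at this)
      simpa using this
    · intro c
      constructor
      · rintro rfl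
        refine ⟨h1, h2, ?_⟩
        intro w hw
        have := h3 (e.symm (Sum.inr (c, w))) (by
          intro y hy
          have := e.symm.injective hy
          simp only [Sum.inr.injEq, Prod.mk.injEq, true_and] at this
          exact hw y this)
        simpa using this
      · intro hc
        funext w
        have := h3 (e.symm (Sum.inr (c, w))) (by
          intro y hy
          have := e.symm.injective hy
          simp only [Sum.inr.injEq, Prod.mk.injEq] at this
          exact hc this.1.symm)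
        simpa using this
  · rintro ⟨rfl, h⟩
    have h0 := (h c₀).1 rfl
    refine ⟨h0.1, h0.2.1, ?_⟩
    intro v hv
    rcases hev : e v with x | ⟨c, w⟩
    · have : v = e.symm (Sum.inl x) := by rw [← hev]; simp
      rw [this]; simp
    · have hv' : v = e.symm (Sum.inr (c, w)) := by rw [← hev]; simp
      rw [hv']
      simp only [glue_inr]
      by_cases hc : c = c₀
      · subst hc
        apply h0.2.2
        intro y hy
        apply hv y
        rw [hv', hy]
      · rw [(h c).2 hc]

lemma rdm_prodVec {ι : Type*} (e : V ≃ E ⊕ (C × W)) (f : E → Fin d) (Φ : (W → Fin d) → ℂ)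
    (hΦ : normSq Φ = 1) (c₀ : C) (j' : ι → W) (a b : ι → Fin d) :
    rdm (fun x => e.symm (Sum.inr (c₀, j' x))) (prodVec e f Φ) a b = rdm j' Φ a b := by
  classical
  rw [rdm_apply, sum_glue e]
  have h0 : ∀ (n : E → Fin d) (σ : C → W → Fin d), ∑ t : V → Fin d,
      (if Ker (fun x => e.symm (Sum.inr (c₀, j' x))) a b (glue e n σ) t then
        prodVec e f Φ (glue e n σ) * (starRingEnd ℂ) (prodVec e f Φ t) else 0)
      = ∑ n' : E → Fin d, ∑ τ : C → W → Fin d,
        (if n = n' ∧ n = f then 1 else 0) * ∏ c, (if (c = c₀ → Ker j' a b (σ c) (τ c)) ∧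
          (c ≠ c₀ → σ c = τ c) then Φ (σ c) * (starRingEnd ℂ) (Φ (τ c)) else 0) := by
    intro n σ
    rw [sum_glue e]
    refine Finset.sum_congr rfl fun n' _ => Finset.sum_congr rfl fun τ _ => ?_
    rw [prodVec_glue, prodVec_glue]
    simp only [ker_glue]
    by_cases hn : n = n'
    · subst hn
      by_cases hf : n = f
      · subst hf
        by_cases hall : ∀ c, (c = c₀ → Ker j' a b (σ c) (τ c)) ∧ (c ≠ c₀ → σ c = τ c)
        · rw [if_pos ⟨rfl, hall⟩]
          simp only [if_true, one_mul, map_prod, and_self]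
          rw [← Finset.prod_mul_distrib]
          refine Finset.prod_congr rfl fun c _ => ?_
          rw [if_pos (hall c)]
        · rw [if_neg (fun h => hall h.2)]
          push Not at hall
          obtain ⟨c, hc⟩ := hall
          rw [Finset.prod_eq_zero (Finset.mem_univ c), mul_zero]
          rw [if_neg]
          intro h
          obtain ⟨hc1, hc2⟩ := hc h.1
          exact hc2 (h.2 hc1)
      · simp [hf]
    · simp [hn]
  simp_rw [h0]
  have h1 : ∀ n : E → Fin d, ∑ σ : C → W → Fin d, ∑ n' : E → Fin d, ∑ τ : C → W → Fin d,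
        (if n = n' ∧ n = f then (1 : ℂ) else 0) * ∏ c, (if (c = c₀ → Ker j' a b (σ c) (τ c)) ∧
          (c ≠ c₀ → σ c = τ c) then Φ (σ c) * (starRingEnd ℂ) (Φ (τ c)) else 0)
      = (if n = f then 1 else 0) * ∑ σ : C → W → Fin d, ∑ τ : C → W → Fin d,
        ∏ c, (if (c = c₀ → Ker j' a b (σ c) (τ c)) ∧
          (c ≠ c₀ → σ c = τ c) then Φ (σ c) * (starRingEnd ℂ) (Φ (τ c)) else 0) := by
    intro n
    rw [Finset.mul_sum]
    refine Finset.sum_congr rfl fun σ _ => ?_
    rw [Finset.sum_eq_single n]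
    · rw [Finset.mul_sum]
      refine Finset.sum_congr rfl fun τ _ => ?_
      simp
    · intro n' _ hne
      refine Finset.sum_eq_zero fun τ _ => ?_
      rw [if_neg (fun h => hne h.1.symm), zero_mul]
    · intro hc; exact absurd (Finset.mem_univ _) hc
  simp_rw [h1]
  rw [← Finset.sum_mul]
  simp only [Finset.sum_ite_eq', Finset.mem_univ, if_true, one_mul]
  rw [sum_sum_prod (fun c x y => if (c = c₀ → Ker j' a b x y) ∧
          (c ≠ c₀ → x = y) then Φ x * (starRingEnd ℂ) (Φ y) else 0)]
  rw [Finset.prod_eq_single c₀]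
  · rw [rdm_apply]
    refine Finset.sum_congr rfl fun x _ => Finset.sum_congr rfl fun y _ => ?_
    simp
  · intro c _ hc
    have h2 : ∀ x, ∑ y, (if (c = c₀ → Ker j' a b x y) ∧
          (c ≠ c₀ → x = y) then Φ x * (starRingEnd ℂ) (Φ y) else 0) = (‖Φ x‖ ^ 2 : ℝ) := by
      intro x
      rw [Finset.sum_eq_single x]
      · rw [if_pos ⟨fun h => absurd h hc, fun _ => rfl⟩, Complex.mul_conj,
          Complex.normSq_eq_norm_sq]
      · intro y _ hy
        rw [if_neg]
        intro h
        exact hy (h.2 hc).symm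
      · intro hc; exact absurd (Finset.mem_univ _) hc
    simp_rw [h2]
    rw [← Complex.ofReal_sum]
    have : ∑ x, ‖Φ x‖ ^ 2 = 1 := hΦ
    rw [this]; simp
  · intro hc; exact absurd (Finset.mem_univ _) hc

end block

end Pool.Agent.H4R2
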