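import Mathlib

set_option autoImplicit false
set_option linter.unusedSectionVars false

open scoped BigOperators
open Finset

namespace Pool.Agent.H4R2

/-- allowed successions of column (or row) states: `0` marker, `1` zero column, `2, …, M + 1` interior
of a block, `M + 2` optional second zero column. -/
def Step {M : ℕ} (a b : Fin (M + 3)) : Prop := b.val = a.val + 1 ∨ (b.val = 0 ∧ M + 1 ≤ a.val)

instance {M : ℕ} (a b : Fin (M + 3)) : Decidable (Step a b) := by unfold Step; infer_instance

/-- periodic patterns -/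
abbrev Pat (M L : ℕ) : Type := {p : ZMod L → Fin (M + 3) // ∀ i, Step (p i) (p (i + 1))}

section pat

variable {M L : ℕ} [NeZero L]

lemma Pat.back (p : Pat M L) (i : ZMod L) (k : ℕ) (hk : k ≤ (p.1 i).val) :
    (p.1 (i - k)).val = (p.1 i).val - k := by
  induction k with
  | zero => simp
  | succ k ih =>
    have h1 := ih (by omega)
    have h2 := p.2 (i - (k + 1 : ℕ))
    have h3 : i - ((k + 1 : ℕ) : ZMod L) + 1 = i - k := by push_cast; ring
    rw [h3] at h2
    rcases h2 with h2 | h2 <;> omega

lemma Pat.fwd (p : Pat M L) (i : ZMod L) (k : ℕ) (hk : (p.1 i).val + k ≤ M + 1) :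
    (p.1 (i + k)).val = (p.1 i).val + k := by
  induction k with
  | zero => simp
  | succ k ih =>
    have h1 := ih (by omega)
    have h2 := p.2 (i + k)
    have h3 : i + (k : ZMod L) + 1 = i + ((k + 1 : ℕ) : ZMod L) := by push_cast; ring
    rw [h3] at h2
    rcases h2 with h2 | h2 <;> omega

lemma Pat.succ_of_le (p : Pat M L) (i : ZMod L) (h : (p.1 i).val ≤ M) :
    (p.1 (i + 1)).val = (p.1 i).val + 1 := by
  have := p.fwd i 1 (by omega)
  simpa using this

lemma Pat.pred_of_pos (p : Pat M L) (i : ZMod L) (h : 1 ≤ (p.1 (i + 1)).val) :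
    (p.1 i).val + 1 = (p.1 (i + 1)).val := by
  have := p.back (i + 1) 1 h
  simp at this
  omega

lemma Pat.exists_marker (p : Pat M L) : ∃ i, (p.1 i).val = 0 := by
  refine ⟨0 - ((p.1 0).val : ℕ), ?_⟩
  rw [p.back 0 _ le_rfl]
  omega

lemma Pat.ext_of_markers (p p' : Pat M L) (h : ∀ i, (p.1 i).val = 0 ↔ (p'.1 i).val = 0) :
    p = p' := by
  obtain ⟨i₀, hi₀⟩ := p.exists_marker
  have key : ∀ n : ℕ, p.1 (i₀ + n) = p'.1 (i₀ + n) := by
    intro n
    induction n with
    | zero =>
      apply Fin.ext
      simp only [Nat.cast_zero, add_zero]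
      rw [hi₀, (h i₀).mp hi₀]
    | succ n ih =>
      have e : i₀ + ((n + 1 : ℕ) : ZMod L) = i₀ + n + 1 := by push_cast; ring
      rw [e]
      apply Fin.ext
      have h1 := p.2 (i₀ + n)
      have h2 := p'.2 (i₀ + n)
      have h3 := h (i₀ + n + 1)
      rw [ih] at h1
      unfold Step at h1 h2
      omega
  apply Subtype.ext
  funext i
  have := key (i - i₀).val
  rw [ZMod.natCast_val, ZMod.cast_id] at this
  simpa using this

/-- shifting a pattern -/
def Pat.shift (M L : ℕ) : Pat M L ≃ Pat M L where
  toFun p := ⟨fun i => p.1 (i + 1), fun i => p.2 (i + 1)⟩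
  invFun p := ⟨fun i => p.1 (i - 1), fun i => by
    have := p.2 (i - 1)
    have e : i - 1 + 1 = i + 1 - 1 := by ring
    rwa [e] at this⟩
  left_inv p := by
    apply Subtype.ext; funext i; simp
  right_inv p := by
    apply Subtype.ext; funext i; simp

/-- number of patterns with state `a` at the origin -/
noncomputable def cnt (M L a : ℕ) [NeZero L] : ℕ :=
  (Finset.univ.filter (fun p : Pat M L => (p.1 0).val = a)).card

lemma cnt_succ_le (a : ℕ) : cnt M L (a + 1) ≤ cnt M L a := by
  unfold cnt
  apply Finset.card_le_card_of_injOn (Pat.shift M L).symm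
  · intro p hp
    simp only [coe_filter, mem_univ, true_and, Set.mem_setOf_eq] at hp ⊢
    have h1 : (((Pat.shift M L).symm p).1 0) = p.1 (0 - 1) := rfl
    rw [h1]
    have := p.pred_of_pos (0 - 1) (by simp [hp])
    simp only [sub_add_cancel] at this
    omega
  · exact (Pat.shift M L).symm.injective.injOn

lemma cnt_le_succ (a : ℕ) (ha : a ≤ M) : cnt M L a ≤ cnt M L (a + 1) := by
  unfold cnt
  apply Finset.card_le_card_of_injOn (Pat.shift M L)
  · intro p hp
    simp only [coe_filter, mem_univ, true_and, Set.mem_setOf_eq] at hp ⊢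
    have h1 : (((Pat.shift M L) p).1 0) = p.1 (0 + 1) := rfl
    rw [h1]
    have := p.succ_of_le 0 (by omega)
    omega
  · exact (Pat.shift M L).injective.injOn

lemma cnt_eq (a : ℕ) (ha : a ≤ M + 1) : cnt M L a = cnt M L 0 := by
  induction a with
  | zero => rfl
  | succ a ih =>
    rw [← ih (by omega)]
    exact le_antisymm (cnt_succ_le a) (cnt_le_succ a (by omega))

lemma sum_cnt : ∑ a ∈ Finset.range (M + 3), cnt M L a = Fintype.card (Pat M L) := by
  classical
  unfold cnt
  rw [← Finset.card_univ]
  rw [Finset.card_eq_sum_card_fiberwise (f := fun p : Pat M L => (p.1 0).val)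
    (t := Finset.range (M + 3))]
  intro p _
  simp

lemma card_pat_le : Fintype.card (Pat M L) ≤ (M + 3) * cnt M L 0 := by
  rw [← sum_cnt, Finset.sum_range_succ]
  have h1 : ∑ a ∈ Finset.range (M + 2), cnt M L a = ∑ a ∈ Finset.range (M + 2), cnt M L 0 :=
    Finset.sum_congr rfl fun a ha => cnt_eq a (by simp at ha; omega)
  rw [h1]
  simp only [sum_const, card_range, smul_eq_mul]
  have h2 : cnt M L (M + 2) ≤ cnt M L 0 := by
    rw [← cnt_eq (M := M) (L := L) (M + 1) le_rfl]
    exact cnt_succ_le (M + 1)
  nlinarith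

/-- number of sites of a pattern in state `a` -/
noncomputable def occ (p : Pat M L) (a : ℕ) : ℕ :=
  (Finset.univ.filter (fun i : ZMod L => (p.1 i).val = a)).card

lemma occ_succ_le (p : Pat M L) (a : ℕ) : occ p (a + 1) ≤ occ p a := by
  unfold occ
  apply Finset.card_le_card_of_injOn (fun i => i - 1)
  · intro i hi
    simp only [coe_filter, mem_univ, true_and, Set.mem_setOf_eq] at hi ⊢
    have := p.pred_of_pos (i - 1) (by simp [hi])
    simp only [sub_add_cancel] at this
    omega
  · exact (sub_left_injective).injOn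

lemma occ_zero_le (p : Pat M L) : occ p 0 ≤ occ p 1 := by
  unfold occ
  apply Finset.card_le_card_of_injOn (fun i => i + 1)
  · intro i hi
    simp only [coe_filter, mem_univ, true_and, Set.mem_setOf_eq] at hi ⊢
    have := p.succ_of_le i (by omega)
    omega
  · exact (add_left_injective 1).injOn

lemma occ_le_one (p : Pat M L) (a : ℕ) : occ p a ≤ occ p 1 := by
  induction a with
  | zero => exact occ_zero_le p
  | succ a ih => exact (occ_succ_le p a).trans ih

lemma le_occ_one (p : Pat M L) : L ≤ (M + 3) * occ p 1 := by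
  classical
  have h1 : ∑ a ∈ Finset.range (M + 3), occ p a = L := by
    have h2 : Fintype.card (ZMod L) = L := ZMod.card L
    conv_rhs => rw [← h2, ← Finset.card_univ]
    rw [Finset.card_eq_sum_card_fiberwise (f := fun i : ZMod L => (p.1 i).val)
      (t := Finset.range (M + 3))]
    · rfl
    · intro i _
      simp
  calc L = ∑ a ∈ Finset.range (M + 3), occ p a := h1.symm
    _ ≤ ∑ _a ∈ Finset.range (M + 3), occ p 1 := Finset.sum_le_sum fun a _ => occ_le_one p a
    _ = (M + 3) * occ p 1 := by simp

lemma exists_pat (hL : (M + 2) * (M + 2) ≤ L) : Nonempty (Pat M L) := by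
  set r := L % (M + 2) with hr
  set q := L / (M + 2) with hq
  have hLr : L = (M + 2) * q + r := (Nat.div_add_mod L (M + 2)).symm
  have hrlt : r < M + 2 := Nat.mod_lt _ (by omega)
  have hqge : M + 2 ≤ q := by
    rw [hq, Nat.le_div_iff_mul_le (by omega)]
    exact hL
  obtain ⟨t, ht⟩ : ∃ t, q = r + (t + 1) := ⟨q - r - 1, by omega⟩
  have hLt : L = r * (M + 3) + (t + 1) * (M + 2) := by
    rw [hLr, ht]; ring
  let f : ℕ → ℕ := fun i => if i < r * (M + 3) then i % (M + 3) else (i - r * (M + 3)) % (M + 2)
  have hf : ∀ i, f i < M + 3 := by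
    intro i
    simp only [f]
    split_ifs
    · exact Nat.mod_lt _ (by omega)
    · have := Nat.mod_lt (i - r * (M + 3)) (show 0 < M + 2 by omega)
      omega
  have hmod : ∀ (n i : ℕ), 0 < n → (i + 1) % n = i % n + 1 ∨ ((i + 1) % n = 0 ∧ i % n = n - 1) := by
    intro n i hn
    rw [Nat.add_mod]
    rcases Nat.lt_or_ge (i % n + 1) n with h | h
    · left
      rcases Nat.lt_or_ge 1 n with h1 | h1
      · rw [Nat.mod_eq_of_lt h1, Nat.mod_eq_of_lt h]
      · have : n = 1 := by omega
        subst this
        omega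
    · right
      have h2 := Nat.mod_lt i hn
      have h3 : i % n = n - 1 := by omega
      refine ⟨?_, h3⟩
      rcases Nat.lt_or_ge 1 n with h1 | h1
      · rw [Nat.mod_eq_of_lt h1, h3]
        have : n - 1 + 1 = n := by omega
        rw [this, Nat.mod_self]
      · have : n = 1 := by omega
        subst this
        omega
  have hf0 : f 0 = 0 := by
    simp only [f]
    split_ifs <;> simp
  have hstep : ∀ i, f (i + 1) = f i + 1 ∨ (f (i + 1) = 0 ∧ M + 1 ≤ f i) := by
    intro i
    simp only [f]
    rcases Nat.lt_or_ge (i + 1) (r * (M + 3)) with h | h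
    · rw [if_pos h, if_pos (by omega)]
      rcases hmod (M + 3) i (by omega) with h1 | h1
      · left; exact h1
      · right; exact ⟨h1.1, by omega⟩
    · rw [if_neg (by omega)]
      rcases Nat.lt_or_ge i (r * (M + 3)) with h2 | h2
      · rw [if_pos h2]
        right
        have h3 : i + 1 = r * (M + 3) := by omega
        refine ⟨?_, ?_⟩
        · rw [h3]; simp
        · rcases hmod (M + 3) i (by omega) with h1 | h1
          · exfalso
            rw [h3, Nat.mul_mod_left] at h1
            omega
          · omega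
      · rw [if_neg (by omega)]
        have h3 : i + 1 - r * (M + 3) = (i - r * (M + 3)) + 1 := by omega
        rw [h3]
        rcases hmod (M + 2) (i - r * (M + 3)) (by omega) with h1 | h1
        · left; exact h1
        · right; exact ⟨h1.1, by omega⟩
  have hlast : M + 1 ≤ f (L - 1) := by
    simp only [f]
    have h1 : (t + 1) * (M + 2) = t * (M + 2) + (M + 2) := by ring
    rw [if_neg (by omega)]
    have h2 : L - 1 - r * (M + 3) = (M + 1) + (M + 2) * t := by
      have : (M + 2) * t = t * (M + 2) := by ring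
      omega
    rw [h2, Nat.add_mul_mod_self_left, Nat.mod_eq_of_lt (by omega)]
  have hL2 : 2 ≤ L := by nlinarith
  refine ⟨⟨fun i => ⟨f i.val, hf _⟩, fun i => ?_⟩⟩
  unfold Step
  simp only
  have h1 : (i + 1).val = (i.val + 1) % L := by
    rw [ZMod.val_add, ZMod.val_one_eq_one_mod, Nat.mod_eq_of_lt (show 1 < L by omega)]
  have h2 : i.val < L := ZMod.val_lt i
  rcases Nat.lt_or_ge (i.val + 1) L with h3 | h3
  · rw [h1, Nat.mod_eq_of_lt h3]
    exact hstep i.val
  · have h4 : i.val + 1 = L := by omega
    rw [h1, h4, Nat.mod_self, hf0]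
    right
    refine ⟨rfl, ?_⟩
    have : i.val = L - 1 := by omega
    rw [this]
    exact hlast

end pat

end Pool.Agent.H4R2
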