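import Mathlib
import Pool.Agent.H4R2.Block
import Pool.Agent.H4R2.Pat

set_option autoImplicit false
set_option linter.unusedSectionVars false

open scoped BigOperators
open Finset

namespace Pool.Agent.H4R2

lemma contract_equiv {K K' : Type*} [Fintype K] [Fintype K'] {d : ℕ} (e : K' ≃ K)
    (A : Fin d → K → K → K → K → ℂ) (L : ℕ) [NeZero L] (s : Site L → Fin d) :
    contract (fun s l r u n => A s (e l) (e r) (e u) (e n)) L s = contract A L s := by
  unfold contract
  let E : (Site L → K') ≃ (Site L → K) := Equiv.arrowCongr (Equiv.refl _) e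
  have hE : ∀ h x, E h x = e (h x) := fun h x => rfl
  refine Fintype.sum_equiv E _ _ fun h => ?_
  refine Fintype.sum_equiv E _ _ fun v => ?_
  simp only [hE]

/-- tensor built from a site labelling rule -/
def ruleTensor {K : Type*} [DecidableEq K] {d : ℕ} (HC VC : K → K → Prop)
    [∀ a b, Decidable (HC a b)] [∀ a b, Decidable (VC a b)] (w : Fin d → K → ℂ) :
    Fin d → K → K → K → K → ℂ :=
  fun s l r u n => if r = u ∧ HC l r ∧ VC n r then w s r else 0

lemma contract_ruleTensor {K : Type*} [Fintype K] [DecidableEq K] {d : ℕ} (HC VC : K → K → Prop)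
    [∀ a b, Decidable (HC a b)] [∀ a b, Decidable (VC a b)] (w : Fin d → K → ℂ)
    (L : ℕ) [NeZero L] (s : Site L → Fin d) :
    contract (ruleTensor HC VC w) L s = ∑ h : Site L → K,
      ∏ x : Site L, (if HC (h (x.1 - 1, x.2)) (h x) ∧ VC (h (x.1, x.2 - 1)) (h x) then
        w (s x) (h x) else 0) := by
  unfold contract
  refine Finset.sum_congr rfl fun h _ => ?_
  rw [Finset.sum_eq_single h]
  · refine Finset.prod_congr rfl fun x _ => ?_
    unfold ruleTensor
    simp
  · intro v _ hne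
    obtain ⟨x, hx⟩ : ∃ x, v x ≠ h x := by
      by_contra hc
      push Not at hc
      exact hne (funext hc)
    rw [Finset.prod_eq_zero (Finset.mem_univ x)]
    unfold ruleTensor
    rw [if_neg]
    intro hc
    exact hx hc.1.symm
  · intro hc; exact absurd (Finset.mem_univ _) hc

section construction

variable {d M : ℕ}

/-- labels: column state, row state, window of the physical configuration -/
abbrev Lab (d M : ℕ) : Type := Fin (M + 3) × Fin (M + 3) × (Fin M × Fin M → Fin d)

def HC (x y : Lab d M) : Prop :=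
  Step x.1 y.1 ∧ x.2.1 = y.2.1 ∧
    ∀ (k : ℕ) (hk : k + 1 < M) (k' : Fin M), x.2.2 (⟨k + 1, hk⟩, k') = y.2.2 (⟨k, by omega⟩, k')

def VC (x y : Lab d M) : Prop :=
  x.1 = y.1 ∧ Step x.2.1 y.2.1 ∧
    ∀ (k : ℕ) (hk : k + 1 < M) (k' : Fin M), x.2.2 (k', ⟨k + 1, hk⟩) = y.2.2 (k', ⟨k, by omega⟩)

/-- the interior condition -/
def Inn (a b : Fin (M + 3)) : Prop := (2 ≤ a.val ∧ a.val ≤ M + 1) ∧ (2 ≤ b.val ∧ b.val ≤ M + 1)

instance (a b : Fin (M + 3)) : Decidable (Inn a b) := by unfold Inn; infer_instance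

variable (hd : 2 ≤ d)

/-- value prescribed outside of the blocks: one on marker lines, zero on other lines -/
def pres (a b : Fin (M + 3)) : Fin d := if a.val = 0 ∨ b.val = 0 then ⟨1, by omega⟩ else ⟨0, by omega⟩

/-- local weight -/
noncomputable def wt [NeZero M] (Φ : (Fin M × Fin M → Fin d) → ℂ) (s : Fin d) (x : Lab d M) : ℂ :=
  (if x.2.2 (0, 0) = s ∧ (¬ Inn x.1 x.2.1 → s = pres hd x.1 x.2.1) then 1 else 0) *
    (if x.1.val = 2 ∧ x.2.1.val = 2 then Φ x.2.2 else 1)

variable {L : ℕ} [NeZero L]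

/-- contribution of one pair of patterns -/
noncomputable def Om (Φ : (Fin M × Fin M → Fin d) → ℂ) (p q : Pat M L) (s : Site L → Fin d) : ℂ :=
  (if ∀ x : Site L, ¬ Inn (p.1 x.1) (q.1 x.2) → s x = pres hd (p.1 x.1) (q.1 x.2) then 1 else 0) *
  ∏ x : Site L, (if (p.1 x.1).val = 2 ∧ (q.1 x.2).val = 2 then
    Φ (fun w => s (x.1 + (w.1 : ℕ), x.2 + (w.2 : ℕ))) else 1)

/-- canonical labelling -/
def lab (p q : Pat M L) (s : Site L → Fin d) (x : Site L) : Lab d M :=
  (p.1 x.1, q.1 x.2, fun w => s (x.1 + (w.1 : ℕ), x.2 + (w.2 : ℕ)))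

lemma lab_HC (p q : Pat M L) (s : Site L → Fin d) (x : Site L) :
    HC (lab p q s (x.1 - 1, x.2)) (lab p q s x) := by
  refine ⟨?_, rfl, ?_⟩
  · have := p.2 (x.1 - 1)
    rwa [sub_add_cancel] at this
  · intro k hk k'
    simp only [lab]
    congr 2
    push_cast
    ring

lemma lab_VC (p q : Pat M L) (s : Site L → Fin d) (x : Site L) :
    VC (lab p q s (x.1, x.2 - 1)) (lab p q s x) := by
  refine ⟨rfl, ?_, ?_⟩
  · have := q.2 (x.2 - 1)
    rwa [sub_add_cancel] at this
  · intro k hk k'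
    simp only [lab]
    congr 2
    push_cast
    ring

lemma lab_unique [NeZero M] (s : Site L → Fin d) (h : Site L → Lab d M)
    (hH : ∀ x : Site L, HC (h (x.1 - 1, x.2)) (h x)) (hV : ∀ x : Site L, VC (h (x.1, x.2 - 1)) (h x))
    (hs : ∀ x : Site L, (h x).2.2 (0, 0) = s x) :
    ∃ p q : Pat M L, h = lab p q s := by
  have hH' : ∀ i j : ZMod L, HC (h (i, j)) (h (i + 1, j)) := by
    intro i j
    have := hH (i + 1, j)
    simpa using this
  have hV' : ∀ i j : ZMod L, VC (h (i, j)) (h (i, j + 1)) := by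
    intro i j
    have := hV (i, j + 1)
    simpa using this
  -- column states do not depend on the row
  have ha : ∀ i j : ZMod L, (h (i, j)).1 = (h (i, 0)).1 := by
    intro i j
    have key : ∀ n : ℕ, (h (i, (n : ZMod L))).1 = (h (i, 0)).1 := by
      intro n
      induction n with
      | zero => simp
      | succ n ih =>
        rw [← ih]
        have := (hV' i n).1
        push_cast
        exact this.symm
    have := key j.val
    rwa [ZMod.natCast_val, ZMod.cast_id] at this
  have hb : ∀ i j : ZMod L, (h (i, j)).2.1 = (h (0, j)).2.1 := by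
    intro i j
    have key : ∀ n : ℕ, (h ((n : ZMod L), j)).2.1 = (h (0, j)).2.1 := by
      intro n
      induction n with
      | zero => simp
      | succ n ih =>
        rw [← ih]
        have := (hH' n j).2.1
        push_cast
        exact this.symm
    have := key i.val
    rwa [ZMod.natCast_val, ZMod.cast_id] at this
  have hM : 0 < M := Nat.pos_of_ne_zero (NeZero.ne M)
  have hw1 : ∀ (k : ℕ) (hk : k < M) (i j : ZMod L),
      (h (i, j)).2.2 (⟨k, hk⟩, 0) = s (i + k, j) := by
    intro k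
    induction k with
    | zero =>
      intro hk i j
      have := hs (i, j)
      simp only [Nat.cast_zero, add_zero]
      exact this
    | succ k ih =>
      intro hk i j
      rw [(hH' i j).2.2 k hk 0, ih (by omega)]
      congr 2
      push_cast
      ring
  have hw2 : ∀ (k' : ℕ) (hk' : k' < M) (k : Fin M) (i j : ZMod L),
      (h (i, j)).2.2 (k, ⟨k', hk'⟩) = s (i + (k : ℕ), j + k') := by
    intro k'
    induction k' with
    | zero =>
      intro hk' k i j
      have := hw1 k.val k.isLt i j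
      simp only [Nat.cast_zero, add_zero]
      exact this
    | succ k' ih =>
      intro hk' k i j
      rw [(hV' i j).2.2 k' hk' k, ih (by omega)]
      congr 2
      push_cast
      ring
  refine ⟨⟨fun i => (h (i, 0)).1, fun i => (hH' i 0).1⟩,
    ⟨fun j => (h (0, j)).2.1, fun j => (hV' 0 j).2.1⟩, ?_⟩
  funext x
  obtain ⟨i, j⟩ := x
  apply Prod.ext
  · exact ha i j
  · apply Prod.ext
    · exact hb i j
    · funext w
      exact hw2 w.2.val w.2.isLt w.1 i j

lemma lab_injective (s : Site L → Fin d) (p q p' q' : Pat M L) (h : lab p q s = lab p' q' s) :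
    p = p' ∧ q = q' := by
  constructor
  · apply Subtype.ext
    funext i
    exact congrArg Prod.fst (congrFun h (i, 0))
  · apply Subtype.ext
    funext j
    exact congrArg (fun y => y.2.1) (congrFun h (0, j))

open Classical in
/-- the tensor of the construction -/
noncomputable def tens [NeZero M] (Φ : (Fin M × Fin M → Fin d) → ℂ) :
    Fin d → Lab d M → Lab d M → Lab d M → Lab d M → ℂ :=
  ruleTensor HC VC (wt hd Φ)

lemma prod_lab [NeZero M] (Φ : (Fin M × Fin M → Fin d) → ℂ) (p q : Pat M L) (s : Site L → Fin d)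
    [∀ a b : Lab d M, Decidable (HC a b)] [∀ a b : Lab d M, Decidable (VC a b)] :
    (∏ x : Site L, if HC (lab p q s (x.1 - 1, x.2)) (lab p q s x) ∧
        VC (lab p q s (x.1, x.2 - 1)) (lab p q s x) then
        wt hd Φ (s x) (lab p q s x) else 0) = Om hd Φ p q s := by
  unfold Om
  have : ∀ x : Site L, (if HC (lab p q s (x.1 - 1, x.2)) (lab p q s x) ∧
      VC (lab p q s (x.1, x.2 - 1)) (lab p q s x) then
      wt hd Φ (s x) (lab p q s x) else 0) =
      (if (¬ Inn (p.1 x.1) (q.1 x.2) → s x = pres hd (p.1 x.1) (q.1 x.2)) then 1 else 0) *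
      (if (p.1 x.1).val = 2 ∧ (q.1 x.2).val = 2 then
        Φ (fun w => s (x.1 + (w.1 : ℕ), x.2 + (w.2 : ℕ))) else 1) := by
    intro x
    rw [if_pos ⟨lab_HC p q s x, lab_VC p q s x⟩]
    unfold wt
    have e0 : (lab p q s x).2.2 (0, 0) = s x := by simp [lab]
    simp only [e0, true_and]
    rfl
  simp_rw [this]
  rw [Finset.prod_mul_distrib]
  congr 1
  rw [Finset.prod_ite_zero]
  simp only [mem_univ, true_imp_iff, prod_const_one]

lemma contract_tens [NeZero M] (Φ : (Fin M × Fin M → Fin d) → ℂ) (s : Site L → Fin d) :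
    contract (tens hd Φ) L s = ∑ P : Pat M L × Pat M L, Om hd Φ P.1 P.2 s := by
  classical
  unfold tens
  rw [contract_ruleTensor]
  have h1 : ∀ h : Site L → Lab d M, (∏ x : Site L,
      (if HC (h (x.1 - 1, x.2)) (h x) ∧ VC (h (x.1, x.2 - 1)) (h x) then
        wt hd Φ (s x) (h x) else 0)) ≠ 0 → ∃ p q : Pat M L, h = lab p q s := by
    intro h hh
    rw [Finset.prod_ne_zero_iff] at hh
    have h2 : ∀ x : Site L, HC (h (x.1 - 1, x.2)) (h x) ∧ VC (h (x.1, x.2 - 1)) (h x) := by
      intro x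
      by_contra hc
      exact hh x (Finset.mem_univ x) (if_neg hc)
    have h3 : ∀ x : Site L, (h x).2.2 (0, 0) = s x := by
      intro x
      have h4 := hh x (Finset.mem_univ x)
      rw [if_pos (h2 x)] at h4
      unfold wt at h4
      by_contra hc
      apply h4
      rw [if_neg (fun h5 => hc h5.1), zero_mul]
    exact lab_unique s h (fun x => (h2 x).1) (fun x => (h2 x).2) h3
  symm
  apply Finset.sum_bij_ne_zero (fun P _ _ => lab P.1 P.2 s)
  · intro P _ _; exact Finset.mem_univ _
  · intro P _ _ P' _ _ hPP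
    obtain ⟨e1, e2⟩ := lab_injective s P.1 P.2 P'.1 P'.2 hPP
    exact Prod.ext e1 e2
  · intro h _ hh
    obtain ⟨p, q, rfl⟩ := h1 h hh
    refine ⟨(p, q), Finset.mem_univ _, ?_, rfl⟩
    intro hc
    apply hh
    rw [prod_lab]
    exact hc
  · intro P _ _
    rw [prod_lab]

end construction

section decomposition

variable {M L : ℕ} [NeZero L]

/-- corners of blocks -/
abbrev Cor (p q : Pat M L) : Type := {x : Site L // (p.1 x.1).val = 2 ∧ (q.1 x.2).val = 2}
/-- sites outside of the blocks -/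
abbrev Ext (p q : Pat M L) : Type := {x : Site L // ¬ Inn (p.1 x.1) (q.1 x.2)}

lemma Inn.cor {p q : Pat M L} {x : Site L} (h : Inn (p.1 x.1) (q.1 x.2)) :
    (p.1 (x.1 - (((p.1 x.1).val - 2 : ℕ) : ZMod L))).val = 2 ∧
      (q.1 (x.2 - (((q.1 x.2).val - 2 : ℕ) : ZMod L))).val = 2 := by
  obtain ⟨h1, h2⟩ := h
  constructor
  · have := p.back x.1 ((p.1 x.1).val - 2) (by omega)
    omega
  · have := q.back x.2 ((q.1 x.2).val - 2) (by omega)
    omega

lemma Inn.lt1 {a b : Fin (M + 3)} (h : Inn a b) : a.val - 2 < M := by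
  obtain ⟨h1, h2⟩ := h; omega

lemma Inn.lt2 {a b : Fin (M + 3)} (h : Inn a b) : b.val - 2 < M := by
  obtain ⟨h1, h2⟩ := h; omega

/-- the block coordinates of a site -/
def decFun (p q : Pat M L) (x : Site L) : Ext p q ⊕ (Cor p q × (Fin M × Fin M)) :=
  if h : Inn (p.1 x.1) (q.1 x.2) then
      Sum.inr (⟨(x.1 - (((p.1 x.1).val - 2 : ℕ) : ZMod L), x.2 - (((q.1 x.2).val - 2 : ℕ) : ZMod L)),
        h.cor⟩, (⟨(p.1 x.1).val - 2, h.lt1⟩, ⟨(q.1 x.2).val - 2, h.lt2⟩))
    else Sum.inl ⟨x, h⟩

/-- the inverse -/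
def decInv (p q : Pat M L) : Ext p q ⊕ (Cor p q × (Fin M × Fin M)) → Site L :=
  Sum.elim (fun x => x.1) (fun cw => (cw.1.1.1 + (cw.2.1 : ℕ), cw.1.1.2 + (cw.2.2 : ℕ)))

/-- decomposition of the torus -/
def dec (p q : Pat M L) : Site L ≃ Ext p q ⊕ (Cor p q × (Fin M × Fin M)) where
  toFun := decFun p q
  invFun := decInv p q
  left_inv x := by
    by_cases h : Inn (p.1 x.1) (q.1 x.2)
    · have : decFun p q x = Sum.inr (⟨(x.1 - (((p.1 x.1).val - 2 : ℕ) : ZMod L),
        x.2 - (((q.1 x.2).val - 2 : ℕ) : ZMod L)),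
        h.cor⟩, (⟨(p.1 x.1).val - 2, h.lt1⟩, ⟨(q.1 x.2).val - 2, h.lt2⟩)) := dif_pos h
      rw [this]
      simp [decInv]
    · have : decFun p q x = Sum.inl ⟨x, h⟩ := dif_neg h
      rw [this]
      simp [decInv]
  right_inv y := by
    rcases y with x | ⟨⟨c, hc1, hc2⟩, k, k'⟩
    · exact dif_neg x.2
    · have h1 := p.fwd c.1 k (by have := k.isLt; omega)
      have h2 := q.fwd c.2 k' (by have := k'.isLt; omega)
      have hin : Inn (p.1 (c.1 + (k : ℕ))) (q.1 (c.2 + (k' : ℕ))) := by
        unfold Inn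
        have := k.isLt
        have := k'.isLt
        omega
      refine (dif_pos hin).trans ?_
      have e1 : (p.1 (c.1 + (k : ℕ))).val - 2 = k := by omega
      have e2 : (q.1 (c.2 + (k' : ℕ))).val - 2 = k' := by omega
      congr 1
      apply Prod.ext
      · apply Subtype.ext
        apply Prod.ext
        · change c.1 + ((k : ℕ) : ZMod L) - (((p.1 (c.1 + (k : ℕ))).val - 2 : ℕ) : ZMod L) = c.1
          rw [e1]; ring
        · change c.2 + ((k' : ℕ) : ZMod L) - (((q.1 (c.2 + (k' : ℕ))).val - 2 : ℕ) : ZMod L) = c.2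
          rw [e2]; ring
      · apply Prod.ext
        · apply Fin.ext; exact e1
        · apply Fin.ext; exact e2

lemma dec_symm_inr (p q : Pat M L) (c : Cor p q) (w : Fin M × Fin M) :
    (dec p q).symm (Sum.inr (c, w)) = (c.1.1 + (w.1 : ℕ), c.1.2 + (w.2 : ℕ)) := rfl

variable {d : ℕ} (hd : 2 ≤ d)

lemma Om_eq_prodVec (Φ : (Fin M × Fin M → Fin d) → ℂ) (p q : Pat M L) :
    Om hd Φ p q = prodVec (dec p q) (fun x : Ext p q => pres hd (p.1 x.1.1) (q.1 x.1.2)) Φ := by
  funext s
  unfold Om prodVec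
  congr 1
  · apply if_congr _ rfl rfl
    constructor
    · intro h
      funext x
      exact h x.1 x.2
    · intro h x hx
      exact congrFun h ⟨x, hx⟩
  · rw [Finset.prod_ite]
    simp only [prod_const_one, mul_one]
    exact (Finset.prod_subtype _ (by simp) _)

end decomposition

end Pool.Agent.H4R2
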