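import Mathlib
import Pool.Agent.H4R2.Peps

set_option autoImplicit false
set_option linter.unusedSectionVars false

open scoped BigOperators
open Finset

namespace Pool.Agent.H4R2

section main

variable {d M L : ℕ} [NeZero L] [NeZero M] (hd : 2 ≤ d)

lemma exists_avoid {ι : Type*} [Fintype ι] (S : Finset (ZMod L)) (hS : Fintype.card ι < S.card)
    (f : ι → Site L) (g : ZMod L → Site L) (hg : Function.Injective g) :
    ∃ i ∈ S, ∀ x, f x ≠ g i := by
  classical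
  by_contra hc
  push Not at hc
  choose F hF using (fun i : S => hc i.1 i.2)
  have : Fintype.card S ≤ Fintype.card ι := by
    apply Fintype.card_le_of_injective F
    intro i j hij
    apply Subtype.ext
    apply hg
    rw [← hF i, ← hF j, hij]
  rw [Fintype.card_coe] at this
  omega

lemma Om_ne (Φ : (Fin M × Fin M → Fin d) → ℂ) (p q : Pat M L) (s : Site L → Fin d)
    (h : Om hd Φ p q s ≠ 0) (x : Site L) (hx : ¬ Inn (p.1 x.1) (q.1 x.2)) :
    s x = pres hd (p.1 x.1) (q.1 x.2) := by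
  unfold Om at h
  by_contra hc
  apply h
  rw [if_neg, zero_mul]
  intro h'
  exact hc (h' x hx)

lemma orth_aux {ι : Type*} [Fintype ι] (Φ : (Fin M × Fin M → Fin d) → ℂ) (j : ι → Site L)
    (hL : (M + 3) * Fintype.card ι < L) (P P' : Pat M L × Pat M L) (hne : P ≠ P') :
    ∃ v, (∀ x, j x ≠ v) ∧ ∃ y y' : Fin d, y ≠ y' ∧
      (∀ s, Om hd Φ P.1 P.2 s ≠ 0 → s v = y) ∧ (∀ s, Om hd Φ P'.1 P'.2 s ≠ 0 → s v = y') := by
  classical
  have hocc : ∀ q : Pat M L, Fintype.card ι <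
      (Finset.univ.filter (fun i : ZMod L => (q.1 i).val = 1)).card := by
    intro q
    have := le_occ_one q
    unfold occ at this
    by_contra hc
    push Not at hc
    have := Nat.mul_le_mul_left (M + 3) hc
    omega
  have h01 : (⟨1, by omega⟩ : Fin d) ≠ ⟨0, by omega⟩ := by
    intro h; simp at h
  -- column case
  have hcol : ∀ (p q p' q' : Pat M L) (i : ZMod L), (p.1 i).val = 0 → (p'.1 i).val ≠ 0 →
      ∃ v, (∀ x, j x ≠ v) ∧ (∀ s, Om hd Φ p q s ≠ 0 → s v = ⟨1, by omega⟩) ∧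
        (∀ s, Om hd Φ p' q' s ≠ 0 → s v = ⟨0, by omega⟩) := by
    intro p q p' q' i h1 h2
    obtain ⟨k, hk, hk2⟩ := exists_avoid _ (hocc q') j (fun k => (i, k))
      (fun a b hab => by simpa using hab)
    simp only [mem_filter, mem_univ, true_and] at hk
    refine ⟨(i, k), hk2, ?_, ?_⟩
    · intro s hs
      rw [Om_ne hd Φ p q s hs (i, k) (by unfold Inn; simp only; omega)]
      unfold pres
      simp [h1]
    · intro s hs
      rw [Om_ne hd Φ p' q' s hs (i, k) (by unfold Inn; simp only; omega)]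
      unfold pres
      rw [if_neg]
      simp only
      omega
  have hrow : ∀ (p q p' q' : Pat M L) (i : ZMod L), (q.1 i).val = 0 → (q'.1 i).val ≠ 0 →
      ∃ v, (∀ x, j x ≠ v) ∧ (∀ s, Om hd Φ p q s ≠ 0 → s v = ⟨1, by omega⟩) ∧
        (∀ s, Om hd Φ p' q' s ≠ 0 → s v = ⟨0, by omega⟩) := by
    intro p q p' q' i h1 h2
    obtain ⟨k, hk, hk2⟩ := exists_avoid _ (hocc p') j (fun k => (k, i))
      (fun a b hab => by simpa using hab)
    simp only [mem_filter, mem_univ, true_and] at hk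
    refine ⟨(k, i), hk2, ?_, ?_⟩
    · intro s hs
      rw [Om_ne hd Φ p q s hs (k, i) (by unfold Inn; simp only; omega)]
      unfold pres
      simp [h1]
    · intro s hs
      rw [Om_ne hd Φ p' q' s hs (k, i) (by unfold Inn; simp only; omega)]
      unfold pres
      rw [if_neg]
      simp only
      omega
  by_cases hp : P.1 = P'.1
  · have hq : P.2 ≠ P'.2 := fun h => hne (Prod.ext hp h)
    obtain ⟨i, hi⟩ : ∃ i, ¬ ((P.2.1 i).val = 0 ↔ (P'.2.1 i).val = 0) := by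
      by_contra hc
      push Not at hc
      exact hq (Pat.ext_of_markers _ _ (fun i => by have := hc i; tauto))
    by_cases h0 : (P.2.1 i).val = 0
    · obtain ⟨v, hv, h1, h2⟩ := hrow P.1 P.2 P'.1 P'.2 i h0 (fun h => hi ⟨fun _ => h, fun _ => h0⟩)
      exact ⟨v, hv, _, _, h01, h1, h2⟩
    · have h0' : (P'.2.1 i).val = 0 := by
        by_contra hc; exact hi ⟨fun h => absurd h h0, fun h => absurd h hc⟩
      obtain ⟨v, hv, h1, h2⟩ := hrow P'.1 P'.2 P.1 P.2 i h0' h0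
      exact ⟨v, hv, _, _, h01.symm, h2, h1⟩
  · obtain ⟨i, hi⟩ : ∃ i, ¬ ((P.1.1 i).val = 0 ↔ (P'.1.1 i).val = 0) := by
      by_contra hc
      push Not at hc
      exact hp (Pat.ext_of_markers _ _ (fun i => by have := hc i; tauto))
    by_cases h0 : (P.1.1 i).val = 0
    · obtain ⟨v, hv, h1, h2⟩ := hcol P.1 P.2 P'.1 P'.2 i h0 (fun h => hi ⟨fun _ => h, fun _ => h0⟩)
      exact ⟨v, hv, _, _, h01, h1, h2⟩
    · have h0' : (P'.1.1 i).val = 0 := by
        by_contra hc; exact hi ⟨fun h => absurd h h0, fun h => absurd h hc⟩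
      obtain ⟨v, hv, h1, h2⟩ := hcol P'.1 P'.2 P.1 P.2 i h0' h0
      exact ⟨v, hv, _, _, h01.symm, h2, h1⟩

lemma normSq_Om (Φ : (Fin M × Fin M → Fin d) → ℂ) (hΦ : normSq Φ = 1) (p q : Pat M L) :
    normSq (Om hd Φ p q) = 1 := by
  rw [Om_eq_prodVec]
  exact normSq_prodVec _ _ _ hΦ

lemma rdm_contract {ι : Type*} [Fintype ι] (Φ : (Fin M × Fin M → Fin d) → ℂ) (j : ι → Site L)
    (hL : (M + 3) * Fintype.card ι < L) (a b : ι → Fin d) :
    rdm j (contract (tens hd Φ) L) a b = ∑ P : Pat M L × Pat M L, rdm j (Om hd Φ P.1 P.2) a b := by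
  have h1 : contract (tens hd Φ) L = fun s => ∑ P : Pat M L × Pat M L, Om hd Φ P.1 P.2 s := by
    funext s; exact contract_tens hd Φ s
  rw [h1]
  exact rdm_sum j (fun P : Pat M L × Pat M L => Om hd Φ P.1 P.2)
    (fun P P' hne => orth_aux hd Φ j hL P P' hne) a b

lemma normSq_contract (Φ : (Fin M × Fin M → Fin d) → ℂ) (hΦ : normSq Φ = 1) :
    normSq (contract (tens hd Φ) L) = (Fintype.card (Pat M L) : ℝ) ^ 2 := by
  have h1 : contract (tens hd Φ) L = fun s => ∑ P : Pat M L × Pat M L, Om hd Φ P.1 P.2 s := by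
    funext s; exact contract_tens hd Φ s
  rw [h1]
  rw [normSq_sum (fun P : Pat M L × Pat M L => Om hd Φ P.1 P.2)]
  · simp only [normSq_Om hd Φ hΦ]
    simp [sq]
  · intro P P' hne
    have hL0 : 0 < L := Nat.pos_of_ne_zero (NeZero.ne L)
    obtain ⟨v, _, h⟩ := orth_aux hd Φ (fun x : Empty => x.elim) (by simpa using hL0) P P' hne
    exact ⟨v, h⟩

/-- position of the window inside of a block -/
def blk (M : ℕ) [NeZero M] (k k' : ℕ) (x : ℤ × ℤ) : Fin M × Fin M :=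
  (Fin.ofNat M ((k : ℤ) + x.1).toNat, Fin.ofNat M ((k' : ℤ) + x.2).toNat)

lemma rdm_Om_good {ι : Type*} (Φ : (Fin M × Fin M → Fin d) → ℂ) (hΦ : normSq Φ = 1)
    (x : ι → ℤ × ℤ) (r : ℕ) (hr : ∀ i, |(x i).1| ≤ r ∧ |(x i).2| ≤ r) (k k' : ℕ)
    (hk : r ≤ k ∧ k + r < M) (hk' : r ≤ k' ∧ k' + r < M) (p q : Pat M L)
    (hp : (p.1 0).val = 2 + k) (hq : (q.1 0).val = 2 + k') (a b : ι → Fin d) :
    rdm (fun i => toTorus L (x i)) (Om hd Φ p q) a b = rdm (fun i => blk M k k' (x i)) Φ a b := by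
  have hc : (p.1 (-(k : ZMod L))).val = 2 ∧ (q.1 (-(k' : ZMod L))).val = 2 := by
    have h1 := p.back 0 k (by omega)
    have h2 := q.back 0 k' (by omega)
    rw [zero_sub] at h1 h2
    omega
  let c : Cor p q := ⟨(-(k : ZMod L), -(k' : ZMod L)), hc⟩
  have hj : (fun i => toTorus L (x i)) =
      fun i => (dec p q).symm (Sum.inr (c, blk M k k' (x i))) := by
    funext i
    rw [dec_symm_inr]
    obtain ⟨h1, h2⟩ := hr i
    rw [abs_le] at h1 h2
    have key : ∀ (k : ℕ) (y : ℤ), r ≤ k → k + r < M → -(r : ℤ) ≤ y → y ≤ r →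
        ((y : ZMod L)) = -(k : ZMod L) + (((Fin.ofNat M ((k : ℤ) + y).toNat : Fin M) : ℕ) : ZMod L) := by
      intro k y h1 h2 h3 h4
      have h5 : ((Fin.ofNat M ((k : ℤ) + y).toNat : Fin M) : ℕ) = ((k : ℤ) + y).toNat := by
        simp only [Fin.ofNat]
        exact Nat.mod_eq_of_lt (by omega)
      rw [h5]
      have h6 : ((((k : ℤ) + y).toNat : ℕ) : ZMod L) = (((k : ℤ) + y : ℤ) : ZMod L) := by
        have h7 : ((((k : ℤ) + y).toNat : ℕ) : ℤ) = (k : ℤ) + y := Int.toNat_of_nonneg (by omega)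
        rw [← h7]
        push_cast
        rw [h7]
      rw [h6]
      push_cast
      ring
    apply Prod.ext
    · exact key k (x i).1 hk.1 hk.2 h1.1 h1.2
    · exact key k' (x i).2 hk'.1 hk'.2 h2.1 h2.2
  rw [hj, Om_eq_prodVec]
  exact rdm_prodVec _ _ _ hΦ c _ a b

/-- average of the block marginals over offsets -/
noncomputable def avg {ι : Type*} (Φ : (Fin M × Fin M → Fin d) → ℂ) (x : ι → ℤ × ℤ) (G : Finset ℕ)
    (a b : ι → Fin d) : ℂ :=
  ((G.card : ℂ) ^ 2)⁻¹ * ∑ k ∈ G, ∑ k' ∈ G, rdm (fun i => blk M k k' (x i)) Φ a b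

lemma sum_good (G : Finset ℕ) (hG : ∀ k ∈ G, k + 2 ≤ M + 1) (f : ℕ → ℂ) :
    ∑ p ∈ Finset.univ.filter (fun p : Pat M L => 2 ≤ (p.1 0).val ∧ (p.1 0).val - 2 ∈ G),
      f ((p.1 0).val - 2) = (cnt M L 0 : ℂ) * ∑ k ∈ G, f k := by
  classical
  rw [← Finset.sum_fiberwise_of_maps_to (s := Finset.univ.filter
    (fun p : Pat M L => 2 ≤ (p.1 0).val ∧ (p.1 0).val - 2 ∈ G)) (t := G)
    (g := fun p : Pat M L => (p.1 0).val - 2)]
  · rw [Finset.mul_sum]
    refine Finset.sum_congr rfl fun k hk => ?_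
    have h1 : ∀ p ∈ (Finset.univ.filter
        (fun p : Pat M L => 2 ≤ (p.1 0).val ∧ (p.1 0).val - 2 ∈ G)).filter
        (fun p => (p.1 0).val - 2 = k), f ((p.1 0).val - 2) = f k := by
      intro p hp
      rw [Finset.mem_filter] at hp
      rw [hp.2]
    rw [Finset.sum_congr rfl h1, Finset.sum_const, nsmul_eq_mul]
    congr 1
    rw [← cnt_eq (M := M) (L := L) (k + 2) (hG k hk)]
    unfold cnt
    congr 2
    ext p
    simp only [mem_filter, mem_univ, true_and]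
    constructor
    · rintro ⟨⟨h1, h2⟩, h3⟩; omega
    · intro h
      have e : (p.1 0).val - 2 = k := by omega
      exact ⟨⟨by omega, by rw [e]; exact hk⟩, e⟩
  · intro p hp
    rw [Finset.mem_filter] at hp
    exact hp.2.2

theorem block_main {ι : Type*} [Fintype ι] (Φ : (Fin M × Fin M → Fin d) → ℂ) (hΦ : normSq Φ = 1)
    (x : ι → ℤ × ℤ) (r : ℕ) (hr : ∀ i, |(x i).1| ≤ r ∧ |(x i).2| ≤ r) (G : Finset ℕ)
    (hG : ∀ k ∈ G, r ≤ k ∧ k + r < M) (hG0 : G.Nonempty)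
    (hL1 : (M + 2) * (M + 2) ≤ L) (hL : (M + 3) * Fintype.card ι < L) :
    0 < normSq (contract (tens hd Φ) L) ∧ ∀ a b,
    ‖((normSq (contract (tens hd Φ) L) : ℝ) : ℂ)⁻¹ *
      rdm (fun i => toTorus L (x i)) (contract (tens hd Φ) L) a b - avg Φ x G a b‖
      ≤ 4 * (1 - (G.card : ℝ) / (M + 3)) := by
  classical
  set T : ℕ := Fintype.card (Pat M L) with hT
  set N : ℕ := cnt M L 0 with hN
  have hne : Nonempty (Pat M L) := exists_pat hL1
  have hTpos : 0 < T := Fintype.card_pos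
  have hTN : T ≤ (M + 3) * N := card_pat_le
  rw [normSq_contract hd Φ hΦ]
  refine ⟨by positivity, ?_⟩
  intro a b
  rw [rdm_contract hd Φ _ hL]
  set F : Pat M L × Pat M L → ℂ := fun P => rdm (fun i => toTorus L (x i)) (Om hd Φ P.1 P.2) a b
    with hF
  have hFb : ∀ P, ‖F P‖ ≤ 1 := by
    intro P
    exact (rdm_bound _ _ _ _).trans (normSq_Om hd Φ hΦ _ _).le
  set S : Finset (Pat M L) := Finset.univ.filter
    (fun p : Pat M L => 2 ≤ (p.1 0).val ∧ (p.1 0).val - 2 ∈ G) with hS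
  have hScard : S.card = N * G.card := by
    have h1 := sum_good (M := M) (L := L) G (fun k hk => by have := hG k hk; omega) (fun _ => 1)
    simp only [sum_const, nsmul_eq_mul, mul_one] at h1
    have h2 : ((S.card : ℕ) : ℂ) = ((N * G.card : ℕ) : ℂ) := by push_cast; exact h1
    exact_mod_cast h2
  have hSsum : ∑ P ∈ S ×ˢ S, F P = (N : ℂ) ^ 2 * ∑ k ∈ G, ∑ k' ∈ G,
      rdm (fun i => blk M k k' (x i)) Φ a b := by
    rw [Finset.sum_product]
    have h1 : ∀ p ∈ S, ∑ q ∈ S, F (p, q) = (N : ℂ) * ∑ k' ∈ G,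
        rdm (fun i => blk M ((p.1 0).val - 2) k' (x i)) Φ a b := by
      intro p hp
      rw [← sum_good (M := M) (L := L) G (fun k hk => by have := hG k hk; omega)
        (fun k' => rdm (fun i => blk M ((p.1 0).val - 2) k' (x i)) Φ a b)]
      refine Finset.sum_congr rfl fun q hq => ?_
      simp only [hS, Finset.mem_filter] at hp hq
      exact rdm_Om_good hd Φ hΦ x r hr _ _ (hG _ hp.2.2) (hG _ hq.2.2) p q (by omega) (by omega) a b
    rw [Finset.sum_congr rfl h1, ← Finset.mul_sum]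
    rw [sum_good (M := M) (L := L) G (fun k hk => by have := hG k hk; omega)
      (fun k => ∑ k' ∈ G, rdm (fun i => blk M k k' (x i)) Φ a b)]
    ring
  have hGc : (G.card : ℂ) ≠ 0 := by
    have := hG0.card_pos
    exact_mod_cast this.ne'
  have hA : ∑ k ∈ G, ∑ k' ∈ G, rdm (fun i => blk M k k' (x i)) Φ a b
      = (G.card : ℂ) ^ 2 * avg Φ x G a b := by
    unfold avg
    rw [← mul_assoc, mul_inv_cancel₀ (pow_ne_zero 2 hGc), one_mul]
  have hAb : ‖avg Φ x G a b‖ ≤ 1 := by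
    unfold avg
    rw [norm_mul, norm_inv, norm_pow, Complex.norm_natCast]
    have hg : (0 : ℝ) < (G.card : ℝ) ^ 2 := by
      have := hG0.card_pos
      positivity
    rw [inv_mul_le_iff₀ hg, mul_one]
    calc ‖∑ k ∈ G, ∑ k' ∈ G, rdm (fun i => blk M k k' (x i)) Φ a b‖
        ≤ ∑ k ∈ G, ∑ k' ∈ G, (1 : ℝ) := by
          refine (norm_sum_le _ _).trans (Finset.sum_le_sum fun k _ => ?_)
          refine (norm_sum_le _ _).trans (Finset.sum_le_sum fun k' _ => ?_)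
          exact (rdm_bound _ _ _ _).trans hΦ.le
      _ = (G.card : ℝ) ^ 2 := by simp [sq]
  have hsplit : ∑ P, F P = ∑ P ∈ S ×ˢ S, F P + ∑ P ∈ (S ×ˢ S)ᶜ, F P :=
    (Finset.sum_add_sum_compl _ _).symm
  have hcompl : ((S ×ˢ S)ᶜ.card : ℝ) = (T : ℝ) ^ 2 - ((N : ℝ) * G.card) ^ 2 := by
    rw [Finset.card_compl, Finset.card_product, hScard, Fintype.card_prod]
    have hle : N * G.card * (N * G.card) ≤ T * T := by
      have : S.card ≤ T := Finset.card_le_univ _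
      rw [hScard] at this
      exact Nat.mul_le_mul this this
    rw [Nat.cast_sub hle]
    push_cast
    ring
  have hbad : ‖∑ P ∈ (S ×ˢ S)ᶜ, F P‖ ≤ (T : ℝ) ^ 2 - ((N : ℝ) * G.card) ^ 2 := by
    rw [← hcompl]
    calc ‖∑ P ∈ (S ×ˢ S)ᶜ, F P‖ ≤ ∑ P ∈ (S ×ˢ S)ᶜ, (1 : ℝ) :=
          (norm_sum_le _ _).trans (Finset.sum_le_sum fun P _ => hFb P)
      _ = _ := by simp
  have hTc : (T : ℂ) ≠ 0 := by exact_mod_cast hTpos.ne'
  have hdiff : (((T : ℝ) ^ 2 : ℝ) : ℂ)⁻¹ * ∑ P, F P - avg Φ x G a b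
      = ((T : ℂ) ^ 2)⁻¹ * (∑ P ∈ (S ×ˢ S)ᶜ, F P - ((T : ℂ) ^ 2 - ((N : ℂ) * G.card) ^ 2) * avg Φ x G a b) := by
    rw [hsplit, hSsum, hA]
    push_cast
    field_simp
    ring
  rw [hdiff, norm_mul, norm_inv, norm_pow, Complex.norm_natCast]
  have hTr : (0 : ℝ) < (T : ℝ) ^ 2 := by positivity
  rw [inv_mul_le_iff₀ hTr]
  have hn1 : ‖((T : ℂ) ^ 2 - ((N : ℂ) * G.card) ^ 2)‖ = (T : ℝ) ^ 2 - ((N : ℝ) * G.card) ^ 2 := by
    have h1 : ((T : ℂ) ^ 2 - ((N : ℂ) * G.card) ^ 2) =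
        (((T : ℝ) ^ 2 - ((N : ℝ) * G.card) ^ 2 : ℝ) : ℂ) := by push_cast; ring
    rw [h1, Complex.norm_real, Real.norm_eq_abs, abs_of_nonneg]
    rw [← hcompl]
    positivity
  have hfin : ‖∑ P ∈ (S ×ˢ S)ᶜ, F P - ((T : ℂ) ^ 2 - ((N : ℂ) * G.card) ^ 2) * avg Φ x G a b‖
      ≤ 2 * ((T : ℝ) ^ 2 - ((N : ℝ) * G.card) ^ 2) := by
    refine (norm_sub_le _ _).trans ?_
    rw [norm_mul, hn1]
    have h0 : 0 ≤ (T : ℝ) ^ 2 - ((N : ℝ) * G.card) ^ 2 := by rw [← hcompl]; positivity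
    nlinarith
  refine hfin.trans ?_
  -- numerical part
  have hTN' : (T : ℝ) ≤ (M + 3) * N := by exact_mod_cast hTN
  have hM3 : (0 : ℝ) < (M : ℝ) + 3 := by positivity
  obtain ⟨g, hg⟩ : ∃ g : ℝ, g = (G.card : ℝ) / (M + 3) := ⟨_, rfl⟩
  have hgc : (G.card : ℝ) = g * (M + 3) := by rw [hg]; exact (div_mul_cancel₀ _ hM3.ne').symm
  have hg0 : 0 ≤ g := by rw [hg]; exact div_nonneg (Nat.cast_nonneg _) hM3.le
  rw [← hg]
  have hNG : g * T ≤ (N : ℝ) * G.card := by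
    rw [hgc]
    nlinarith
  have hT0 : (0 : ℝ) < T := by exact_mod_cast hTpos
  have hg1 : g ≤ 1 := by
    rw [hg, div_le_one hM3]
    have : G.card ≤ M := by
      have h1 : G ⊆ Finset.range M := fun k hk => by
        have := hG k hk
        simp; omega
      simpa using Finset.card_le_card h1
    have : (G.card : ℝ) ≤ M := by exact_mod_cast this
    linarith
  have h1 : (g * T) ^ 2 ≤ ((N : ℝ) * G.card) ^ 2 := by
    apply pow_le_pow_left₀ (by positivity) hNG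
  nlinarith [mul_nonneg hg0 (sq_nonneg (T : ℝ)), mul_nonneg (sub_nonneg.mpr hg1) (sq_nonneg (T : ℝ)),
    mul_nonneg (mul_nonneg (sub_nonneg.mpr hg1) (sub_nonneg.mpr hg1)) (sq_nonneg (T : ℝ))]

end main

end Pool.Agent.H4R2
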