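import Mathlib
import Pool.Agent.H4R2.Main

set_option autoImplicit false
set_option linter.unusedSectionVars false

open scoped BigOperators
open Finset

namespace Pool.Agent.H4R2

section split

variable {V E U : Type*} {d : ℕ}

/-- glue two configurations -/
def glue1 (e : V ≃ E ⊕ U) (n : E → Fin d) (σ : U → Fin d) : V → Fin d :=
  fun v => Sum.elim n σ (e v)

@[simp] lemma glue1_inl (e : V ≃ E ⊕ U) (n : E → Fin d) (σ : U → Fin d) (x : E) :
    glue1 e n σ (e.symm (Sum.inl x)) = n x := by simp [glue1]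

@[simp] lemma glue1_inr (e : V ≃ E ⊕ U) (n : E → Fin d) (σ : U → Fin d) (u : U) :
    glue1 e n σ (e.symm (Sum.inr u)) = σ u := by simp [glue1]

/-- the bijection behind `glue1` -/
def glue1Equiv (e : V ≃ E ⊕ U) : ((E → Fin d) × (U → Fin d)) ≃ (V → Fin d) where
  toFun x := glue1 e x.1 x.2
  invFun s := (fun x => s (e.symm (Sum.inl x)), fun u => s (e.symm (Sum.inr u)))
  left_inv x := by
    apply Prod.ext
    · funext y; simp
    · funext w; simp
  right_inv s := by
    funext v
    simp only [glue1]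
    rcases h : e v with y | u
    · simp only [Sum.elim_inl]; rw [← h]; simp
    · simp only [Sum.elim_inr]; rw [← h]; simp

variable [Fintype V] [DecidableEq V] [Fintype E] [DecidableEq E] [Fintype U] [DecidableEq U]

lemma sum_glue1 {M : Type*} [AddCommMonoid M] (e : V ≃ E ⊕ U) (F : (V → Fin d) → M) :
    ∑ s, F s = ∑ n : E → Fin d, ∑ σ : U → Fin d, F (glue1 e n σ) := by
  rw [← Fintype.sum_prod_type' (f := fun n σ => F (glue1 e n σ))]
  exact (Fintype.sum_equiv (glue1Equiv e) (fun x => F (glue1 e x.1 x.2)) F (fun x => rfl)).symm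

lemma ker_glue1 {ι : Type*} (e : V ≃ E ⊕ U) (j' : ι → U) (a b : ι → Fin d)
    (n n' : E → Fin d) (σ τ : U → Fin d) :
    Ker (fun x => e.symm (Sum.inr (j' x))) a b (glue1 e n σ) (glue1 e n' τ) ↔
      n = n' ∧ Ker j' a b σ τ := by
  unfold Ker
  simp only [glue1_inr]
  constructor
  · rintro ⟨h1, h2, h3⟩
    refine ⟨?_, h1, h2, ?_⟩
    · funext x
      have := h3 (e.symm (Sum.inl x)) (by
        intro y hy
        have := e.symm.injective hy
        simp at this)
      simpa using this
    · intro w hw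
      have := h3 (e.symm (Sum.inr w)) (by
        intro y hy
        have := e.symm.injective hy
        simp only [Sum.inr.injEq] at this
        exact hw y this)
      simpa using this
  · rintro ⟨rfl, h1, h2, h3⟩
    refine ⟨h1, h2, ?_⟩
    intro v hv
    rcases hev : e v with x | w
    · have : v = e.symm (Sum.inl x) := by rw [← hev]; simp
      rw [this]; simp
    · have hv' : v = e.symm (Sum.inr w) := by rw [← hev]; simp
      rw [hv']
      simp only [glue1_inr]
      apply h3
      intro y hy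
      apply hv y
      rw [hv', hy]

lemma rdm_split {ι : Type*} (e : V ≃ E ⊕ U) (j' : ι → U) (ψ : (V → Fin d) → ℂ)
    (a b : ι → Fin d) :
    rdm (fun x => e.symm (Sum.inr (j' x))) ψ a b =
      ∑ n : E → Fin d, rdm j' (fun σ => ψ (glue1 e n σ)) a b := by
  classical
  rw [rdm_apply, sum_glue1 e]
  refine Finset.sum_congr rfl fun n _ => ?_
  rw [rdm_apply]
  refine Finset.sum_congr rfl fun σ _ => ?_
  rw [sum_glue1 e, Finset.sum_eq_single n]
  · refine Finset.sum_congr rfl fun τ _ => ?_
    simp only [ker_glue1, true_and]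
  · intro n' _ hne
    refine Finset.sum_eq_zero fun τ _ => ?_
    rw [if_neg]
    rw [ker_glue1]
    intro h
    exact hne h.1.symm
  · intro hc; exact absurd (Finset.mem_univ _) hc

lemma normSq_split (e : V ≃ E ⊕ U) (ψ : (V → Fin d) → ℂ) :
    normSq ψ = ∑ n : E → Fin d, normSq (fun σ => ψ (glue1 e n σ)) := by
  unfold normSq
  rw [sum_glue1 e]

end split

section caratheodory

variable {d : ℕ}

/-- From a family of (sub)vectors to a single vector with a classical register: abstract form. -/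
lemma exists_pure {ι Z Γ U E' W : Type*} [Fintype ι] [DecidableEq ι] [Fintype Z] [Fintype Γ]
    [Fintype U] [DecidableEq U] [Fintype E'] [DecidableEq E'] [Fintype W] [DecidableEq W]
    (hd : 2 ≤ d) (φ : Z → (U → Fin d) → ℂ) (hφ : ∑ z, normSq (φ z) = 1)
    (j : Γ → ι → U) (e : W ≃ E' ⊕ U) (hE : 2 * Fintype.card ι + 2 ≤ Fintype.card E') :
    ∃ Φ : (W → Fin d) → ℂ, normSq Φ = 1 ∧ ∀ a b,
      ∑ γ, rdm (fun i => e.symm (Sum.inr (j γ i))) Φ a b = ∑ γ, ∑ z, rdm (j γ) (φ z) a b := by
  classical
  -- the (real) vector space of matrices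
  let m : Z → ((ι → Fin d) × (ι → Fin d) → ℂ) := fun z ab =>
    (((normSq (φ z))⁻¹ : ℝ) : ℂ) * ∑ γ, rdm (j γ) (φ z) ab.1 ab.2
  let τ : ((ι → Fin d) × (ι → Fin d) → ℂ) := fun ab => ∑ γ, ∑ z, rdm (j γ) (φ z) ab.1 ab.2
  have hmz : ∀ z ab, ((normSq (φ z) : ℝ) : ℂ) * m z ab = ∑ γ, rdm (j γ) (φ z) ab.1 ab.2 := by
    intro z ab
    simp only [m]
    by_cases h0 : normSq (φ z) = 0
    · have h1 : ∀ γ, rdm (j γ) (φ z) ab.1 ab.2 = 0 := by
        intro γ
        have := rdm_bound (j γ) (φ z) ab.1 ab.2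
        rw [h0] at this
        exact norm_le_zero_iff.mp this
      simp [h1]
    · rw [← mul_assoc, ← Complex.ofReal_mul, mul_inv_cancel₀ h0]
      simp
  have hτ : τ = ∑ z, (normSq (φ z)) • m z := by
    funext ab
    simp only [Finset.sum_apply, Pi.smul_apply, Complex.real_smul, hmz]
    rw [Finset.sum_comm]
  have hfilt : ∑ z, (normSq (φ z)) • m z
      = ∑ z ∈ Finset.univ.filter (fun z => normSq (φ z) ≠ 0), (normSq (φ z)) • m z := by
    symm
    apply Finset.sum_filter_of_ne
    intro z _ hz h0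
    apply hz
    rw [h0, zero_smul]
  have hfilt1 : ∑ z ∈ Finset.univ.filter (fun z => normSq (φ z) ≠ 0), normSq (φ z) = 1 := by
    rw [← hφ]
    apply Finset.sum_filter_of_ne
    intro z _ hz
    exact hz
  have hmem : τ ∈ convexHull ℝ (m '' {z | normSq (φ z) ≠ 0}) := by
    rw [hτ, hfilt]
    apply (convex_convexHull ℝ (m '' {z | normSq (φ z) ≠ 0})).sum_mem
    · intro z _; exact normSq_nonneg _
    · exact hfilt1
    · intro z hz
      rw [Finset.mem_filter] at hz
      exact subset_convexHull ℝ _ ⟨z, hz.2, rfl⟩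
  obtain ⟨κ, hκ, y, w, hy, haff, hw, hw1, hwy⟩ := eq_pos_convex_span_of_mem_convexHull hmem
  have hcard := haff.card_le_finrank_succ
  have hfin : Module.finrank ℝ ↥(vectorSpan ℝ (Set.range y)) ≤ 2 * (d ^ Fintype.card ι * d ^ Fintype.card ι) := by
    refine (Submodule.finrank_le _).trans ?_
    rw [Module.finrank_pi_fintype ℝ]
    simp only [Complex.finrank_real_complex, sum_const, card_univ, Fintype.card_prod,
      Fintype.card_pi, Fintype.card_fin, prod_const, smul_eq_mul]
    rw [mul_comm]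
  have hle : Fintype.card κ ≤ Fintype.card (E' → Fin d) := by
    rw [Fintype.card_fun, Fintype.card_fin]
    calc Fintype.card κ ≤ 2 * (d ^ Fintype.card ι * d ^ Fintype.card ι) + 1 := by omega
      _ ≤ d ^ (2 * Fintype.card ι + 2) := by
          have h1 : d ^ (2 * Fintype.card ι + 2) = (d ^ Fintype.card ι * d ^ Fintype.card ι) * (d * d) := by
            ring
          have h2 : 0 < d ^ Fintype.card ι * d ^ Fintype.card ι := by positivity
          have h3 : 4 ≤ d * d := by nlinarith
          rw [h1]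
          nlinarith
      _ ≤ d ^ Fintype.card E' := Nat.pow_le_pow_right (by omega) hE
  obtain ⟨code⟩ : Nonempty (κ ↪ (E' → Fin d)) := Function.Embedding.nonempty_of_card_le hle
  have hz : ∀ i : κ, ∃ z, normSq (φ z) ≠ 0 ∧ m z = y i := fun i => hy ⟨i, rfl⟩
  choose z hall hz using hz
  let c : κ → ℂ := fun i => ((Real.sqrt (w i * (normSq (φ (z i)))⁻¹) : ℝ) : ℂ)
  -- amplitudes
  let Φ0 : (W → Fin d) → ℂ := fun s => ∑ i : κ,
    (if (fun x => s (e.symm (Sum.inl x))) = code i then 1 else 0) *
      (c i * φ (z i) (fun u => s (e.symm (Sum.inr u))))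
  have hglue : ∀ (n : E' → Fin d) (σ : U → Fin d), Φ0 (glue1 e n σ) =
      ∑ i : κ, (if n = code i then 1 else 0) * (c i * φ (z i) σ) := by
    intro n σ
    simp only [Φ0, glue1_inl, glue1_inr]
  have hcode : ∀ (i : κ) (σ : U → Fin d), Φ0 (glue1 e (code i) σ) = c i * φ (z i) σ := by
    intro i σ
    rw [hglue, Finset.sum_eq_single i]
    · simp
    · intro i' _ hne
      rw [if_neg, zero_mul]
      intro h
      exact hne (code.injective h).symm
    · intro hc; exact absurd (Finset.mem_univ _) hc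
  have hncode : ∀ n : E' → Fin d, (∀ i, n ≠ code i) → ∀ σ : U → Fin d, Φ0 (glue1 e n σ) = 0 := by
    intro n hn σ
    rw [hglue]
    exact Finset.sum_eq_zero fun i _ => by rw [if_neg (hn i), zero_mul]
  have hsumcode : ∀ F : (E' → Fin d) → ℂ, (∀ n, (∀ i, n ≠ code i) → F n = 0) →
      ∑ n, F n = ∑ i, F (code i) := by
    intro F hF
    rw [← Finset.sum_subset (Finset.subset_univ (Finset.univ.map code))]
    · rw [Finset.sum_map]
    · intro n _ hn
      apply hF
      intro i hi
      apply hn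
      rw [hi]
      simp
  have hsumcodeR : ∀ F : (E' → Fin d) → ℝ, (∀ n, (∀ i, n ≠ code i) → F n = 0) →
      ∑ n, F n = ∑ i, F (code i) := by
    intro F hF
    rw [← Finset.sum_subset (Finset.subset_univ (Finset.univ.map code))]
    · rw [Finset.sum_map]
    · intro n _ hn
      apply hF
      intro i hi
      apply hn
      rw [hi]
      simp
  have hcnorm : ∀ i, ‖c i‖ ^ 2 = w i * (normSq (φ (z i)))⁻¹ := by
    intro i
    simp only [c]
    rw [Complex.norm_real, Real.norm_eq_abs, sq_abs, Real.sq_sqrt]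
    exact mul_nonneg (hw i).le (inv_nonneg.mpr (normSq_nonneg _))
  have hrdm : ∀ (γ : Γ) a b, rdm (fun i => e.symm (Sum.inr (j γ i))) Φ0 a b
      = ∑ i, ((w i * (normSq (φ (z i)))⁻¹ : ℝ) : ℂ) * rdm (j γ) (φ (z i)) a b := by
    intro γ a b
    rw [rdm_split e (j γ) Φ0, hsumcode]
    · refine Finset.sum_congr rfl fun i _ => ?_
      have h1 : (fun σ => Φ0 (glue1 e (code i) σ)) = c i • φ (z i) := by
        funext σ
        rw [hcode]
        rfl
      rw [h1, rdm_smul, hcnorm]
    · intro n hn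
      have h1 : (fun σ => Φ0 (glue1 e n σ)) = (0 : ℂ) • (fun _ => (0 : ℂ)) := by
        funext σ
        rw [hncode n hn σ]
        simp
      rw [h1, rdm_smul]
      simp
  have htot : ∀ a b, ∑ γ, rdm (fun i => e.symm (Sum.inr (j γ i))) Φ0 a b
      = ∑ γ, ∑ z, rdm (j γ) (φ z) a b := by
    intro a b
    simp_rw [hrdm]
    rw [Finset.sum_comm]
    have h1 : ∀ i, ∑ γ, ((w i * (normSq (φ (z i)))⁻¹ : ℝ) : ℂ) * rdm (j γ) (φ (z i)) a b
        = (w i • y i) (a, b) := by
      intro i
      rw [← hz i]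
      simp only [m, Pi.smul_apply, Complex.real_smul]
      rw [← Finset.mul_sum]
      push_cast
      ring
    simp_rw [h1]
    rw [← Finset.sum_apply, hwy]
  refine ⟨Φ0, ?_, htot⟩
  rw [normSq_split e, hsumcodeR]
  · have h1 : ∀ i, normSq (fun σ => Φ0 (glue1 e (code i) σ)) = w i := by
      intro i
      have h1 : (fun σ => Φ0 (glue1 e (code i) σ)) = c i • φ (z i) := by
        funext σ
        rw [hcode]
        rfl
      rw [h1, normSq_smul, hcnorm, mul_assoc, inv_mul_cancel₀ (hall i), mul_one]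
    simp_rw [h1]
    exact hw1
  · intro n hn
    unfold normSq
    apply Finset.sum_eq_zero
    intro σ _
    change ‖Φ0 (glue1 e n σ)‖ ^ 2 = 0
    rw [hncode n hn σ]
    simp

end caratheodory

end Pool.Agent.H4R2
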