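import Mathlib
import Pool.Agent.H4R2.Carath

set_option autoImplicit false
set_option linter.unusedSectionVars false

open scoped BigOperators
open Finset

namespace Pool.Agent.H4R2

section local_

variable {d M L : ℕ} [NeZero L] [NeZero M]

/-- the data part of the block -/
abbrev Dat (M : ℕ) : Type := {w : Fin M × Fin M // w.2.val + 1 < M}

/-- placement of the data part on the torus -/
def beta (M L : ℕ) (w : Dat M) : Site L := ((w.1.1.val : ZMod L), (w.1.2.val : ZMod L))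

lemma beta_injective (hML : M ≤ L) : Function.Injective (beta M L) := by
  intro w w' h
  have h1 := congrArg Prod.fst h
  have h2 := congrArg Prod.snd h
  simp only [beta] at h1 h2
  rw [ZMod.natCast_eq_natCast_iff'] at h1 h2
  rw [Nat.mod_eq_of_lt (by have := w.1.1.isLt; omega), Nat.mod_eq_of_lt (by have := w'.1.1.isLt; omega)] at h1
  rw [Nat.mod_eq_of_lt (by have := w.1.2.isLt; omega), Nat.mod_eq_of_lt (by have := w'.1.2.isLt; omega)] at h2
  apply Subtype.ext
  exact Prod.ext (Fin.ext h1) (Fin.ext h2)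

open Classical in
/-- the torus as complement of the data part and data part -/
noncomputable def e1 (hML : M ≤ L) : Site L ≃ {v : Site L // ¬ v ∈ Set.range (beta M L)} ⊕ Dat M :=
  (Equiv.sumCompl (fun v => v ∈ Set.range (beta M L))).symm.trans
    ((Equiv.sumComm _ _).trans (Equiv.sumCongr (Equiv.refl _)
      (Equiv.ofInjective (beta M L) (beta_injective hML)).symm))

lemma e1_symm_inr (hML : M ≤ L) (w : Dat M) : (e1 hML).symm (Sum.inr w) = beta M L w := by
  classical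
  simp [e1]

/-- the block as register row and data part -/
def e2 (M : ℕ) : Fin M × Fin M ≃ {w : Fin M × Fin M // ¬ w.2.val + 1 < M} ⊕ Dat M :=
  (Equiv.sumCompl (fun w : Fin M × Fin M => w.2.val + 1 < M)).symm.trans (Equiv.sumComm _ _)

lemma e2_symm_inr (w : Dat M) : (e2 M).symm (Sum.inr w) = w.1 := by
  simp [e2]

lemma blk_val (k : ℕ) (y : ℤ) (r : ℕ) (h1 : r ≤ k) (h2 : k + r < M) (h3 : -(r : ℤ) ≤ y)
    (h4 : y ≤ r) : ((Fin.ofNat M ((k : ℤ) + y).toNat : Fin M) : ℕ) = ((k : ℤ) + y).toNat := by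
  simp only [Fin.ofNat]
  exact Nat.mod_eq_of_lt (by omega)

theorem exists_block (hd : 2 ≤ d) {ι : Type*} [Fintype ι] [DecidableEq ι] (ψ : (Site L → Fin d) → ℂ)
    (hψ : normSq ψ = 1)
    (x : ι → ℤ × ℤ) (r : ℕ) (hr : ∀ i, |(x i).1| ≤ r ∧ |(x i).2| ≤ r)
    (hM : 2 * Fintype.card ι + 2 ≤ M) (hMr : 2 * r + 2 ≤ M) (hML : M ≤ L)
    (hTI : ∀ u : Site L, ∀ a b, rdm (fun i => toTorus L (x i) + u) ψ a b
      = rdm (fun i => toTorus L (x i)) ψ a b) :
    ∃ Φ : (Fin M × Fin M → Fin d) → ℂ, normSq Φ = 1 ∧ ∀ a b,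
      avg Φ x (Finset.Ico r (M - 1 - r)) a b = rdm (fun i => toTorus L (x i)) ψ a b := by
  classical
  set G := Finset.Ico r (M - 1 - r) with hG
  let Γ : Type := {g : ℕ × ℕ // g ∈ G ×ˢ G}
  have hmem : ∀ γ : Γ, (r ≤ γ.1.1 ∧ γ.1.1 + r + 1 < M) ∧ (r ≤ γ.1.2 ∧ γ.1.2 + r + 1 < M) := by
    intro γ
    have := γ.2
    simp only [hG, Finset.mem_product, Finset.mem_Ico] at this
    omega
  let j : Γ → ι → Dat M := fun γ i => ⟨blk M γ.1.1 γ.1.2 (x i), by
    obtain ⟨h1, h2⟩ := hmem γ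
    obtain ⟨h3, h4⟩ := hr i
    rw [abs_le] at h3 h4
    simp only [blk]
    rw [blk_val γ.1.2 (x i).2 r h2.1 (by omega) h4.1 h4.2]
    omega⟩
  have hcardE : Fintype.card {w : Fin M × Fin M // ¬ w.2.val + 1 < M} ≥ M := by
    have hM0 : 0 < M := by omega
    let f : Fin M → {w : Fin M × Fin M // ¬ w.2.val + 1 < M} :=
      fun i => ⟨(i, ⟨M - 1, by omega⟩), by simp only; omega⟩
    have hf : Function.Injective f := by
      intro a b hab
      have := congrArg (fun z => z.1.1) hab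
      exact this
    have := Fintype.card_le_of_injective f hf
    rwa [Fintype.card_fin] at this
  obtain ⟨Φ, hΦ1, hΦ2⟩ := exists_pure (Z := {v : Site L // ¬ v ∈ Set.range (beta M L)} → Fin d)
    hd (fun n σ => ψ (glue1 (e1 hML) n σ)) (by rw [← normSq_split]; exact hψ) j (e2 M) (by omega)
  refine ⟨Φ, hΦ1, ?_⟩
  intro a b
  have h1 := hΦ2 a b
  have h2 : ∀ γ : Γ, ∑ z, rdm (j γ) (fun σ => ψ (glue1 (e1 hML) z σ)) a b
      = rdm (fun i => toTorus L (x i)) ψ a b := by
    intro γ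
    rw [← rdm_split (e1 hML) (j γ) ψ a b]
    rw [← hTI ((γ.1.1 : ZMod L), (γ.1.2 : ZMod L))]
    congr 1
    funext i
    rw [e1_symm_inr]
    obtain ⟨h1, h2⟩ := hmem γ
    obtain ⟨h3, h4⟩ := hr i
    rw [abs_le] at h3 h4
    have key : ∀ (k : ℕ) (y : ℤ), r ≤ k → k + r + 1 < M → -(r : ℤ) ≤ y → y ≤ r →
        (((Fin.ofNat M ((k : ℤ) + y).toNat : Fin M) : ℕ) : ZMod L) = (y : ZMod L) + (k : ZMod L) := by
      intro k y h1 h2 h3 h4
      rw [blk_val k y r h1 (by omega) h3 h4]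
      have h6 : ((((k : ℤ) + y).toNat : ℕ) : ZMod L) = (((k : ℤ) + y : ℤ) : ZMod L) := by
        have h7 : ((((k : ℤ) + y).toNat : ℕ) : ℤ) = (k : ℤ) + y := Int.toNat_of_nonneg (by omega)
        rw [← h7]
        push_cast
        rw [h7]
      rw [h6]
      push_cast
      ring
    apply Prod.ext
    · exact key γ.1.1 (x i).1 h1.1 h1.2 h3.1 h3.2
    · exact key γ.1.2 (x i).2 h2.1 h2.2 h4.1 h4.2
  simp_rw [h2] at h1
  have h3 : ∑ γ : Γ, rdm (fun i => (e2 M).symm (Sum.inr (j γ i))) Φ a b =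
      ∑ k ∈ G, ∑ k' ∈ G, rdm (fun i => blk M k k' (x i)) Φ a b := by
    rw [← Finset.sum_product' (s := G) (t := G)
      (f := fun k k' => rdm (fun i => blk M k k' (x i)) Φ a b)]
    rw [← Finset.sum_coe_sort (G ×ˢ G)]
    refine Finset.sum_congr rfl fun γ _ => ?_
    congr 1
  rw [h3] at h1
  have hcardΓ : (Fintype.card Γ : ℂ) = (G.card : ℂ) ^ 2 := by
    have : Fintype.card Γ = (G ×ˢ G).card := Fintype.card_coe _
    rw [this, Finset.card_product]
    push_cast
    ring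
  have hGc : (G.card : ℂ) ≠ 0 := by
    have : 0 < G.card := by
      rw [hG, Nat.card_Ico]; omega
    exact_mod_cast this.ne'
  unfold avg
  rw [h1, Finset.sum_const, Finset.card_univ, nsmul_eq_mul, hcardΓ, ← mul_assoc,
    inv_mul_cancel₀ (pow_ne_zero 2 hGc), one_mul]

end local_

end Pool.Agent.H4R2
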