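import Mathlib
import Pool.Agent.H4R2.Local

set_option autoImplicit false
set_option linter.unusedSectionVars false

open scoped BigOperators ComplexOrder
open Finset

namespace Pool.Agent.H4R2

section ti

variable {d L : ℕ} [NeZero L]

lemma term_shift (B : Finset (ℤ × ℤ)) (h : Matrix (B → Fin d) (B → Fin d) ℂ)
    (u w : Site L) (s t : Site L → Fin d) :
    term B h L w (fun v => s (v + u)) (fun v => t (v + u)) = term B h L (w + u) s t := by
  unfold term
  have h1 : (∀ v, (∀ x : B, toTorus L x + w ≠ v) → s (v + u) = t (v + u)) ↔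
      (∀ v, (∀ x : B, toTorus L x + (w + u) ≠ v) → s v = t v) := by
    constructor
    · intro hh v hv
      have := hh (v - u) (fun x hx => hv x (by rw [← add_assoc, hx]; simp))
      simpa using this
    · intro hh v hv
      exact hh (v + u) (fun x hx => hv x (by rw [← add_assoc] at hx; exact add_right_cancel hx))
  by_cases hc : ∀ v, (∀ x : B, toTorus L x + (w + u) ≠ v) → s v = t v
  · rw [if_pos (h1.mpr hc), if_pos hc]
    simp only [add_assoc]
  · rw [if_neg (fun h => hc (h1.mp h)), if_neg hc]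

lemma ham_shift (B : Finset (ℤ × ℤ)) (h : Matrix (B → Fin d) (B → Fin d) ℂ)
    (u : Site L) (s t : Site L → Fin d) :
    ham B h L (fun v => s (v + u)) (fun v => t (v + u)) = ham B h L s t := by
  unfold ham
  simp only [Matrix.sum_apply, term_shift]
  exact Fintype.sum_equiv (Equiv.addRight u) _ _ (fun w => rfl)

lemma ham_eigen_shift (B : Finset (ℤ × ℤ)) (h : Matrix (B → Fin d) (B → Fin d) ℂ)
    (u : Site L) (ψ : (Site L → Fin d) → ℂ) (E : ℂ) (hE : (ham B h L).mulVec ψ = E • ψ) :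
    (ham B h L).mulVec (fun s => ψ (fun v => s (v + u))) = E • (fun s => ψ (fun v => s (v + u))) := by
  funext s
  have h1 := congrFun hE (fun v => s (v + u))
  simp only [Pi.smul_apply, smul_eq_mul] at h1 ⊢
  rw [← h1]
  unfold Matrix.mulVec dotProduct
  let T : (Site L → Fin d) ≃ (Site L → Fin d) :=
    Equiv.arrowCongr (Equiv.addRight u).symm (Equiv.refl _)
  refine Fintype.sum_equiv T _ _ fun t => ?_
  have hT : T t = fun v => t (v + u) := rfl
  rw [hT]
  simp only []
  rw [← ham_shift B h u s t]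

lemma rdm_shift {ι : Type*} (ψ : (Site L → Fin d) → ℂ) (hψ : normSq ψ = 1)
    (hT : ∀ u : Site L, ∃ c : ℂ, (fun s => ψ (fun v => s (v + u))) = c • ψ)
    (j : ι → Site L) (u : Site L) (a b : ι → Fin d) :
    rdm (fun i => j i + u) ψ a b = rdm j ψ a b := by
  obtain ⟨c, hc⟩ := hT (-u)
  have h1 := rdm_comp_equiv (Equiv.addRight (-u)) j ψ a b
  have h2 : (fun s : Site L → Fin d => ψ (s ∘ (Equiv.addRight (-u)))) = c • ψ := hc
  have h3 := normSq_comp_equiv (Equiv.addRight (-u)) ψ
  rw [h2, normSq_smul, hψ, mul_one] at h3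
  rw [h2, rdm_smul, h3] at h1
  have h4 : (⇑(Equiv.addRight (-u)).symm ∘ j) = fun i => j i + u := by
    funext i
    simp
  rw [h4] at h1
  rw [← h1]
  simp

end ti

section tracenorm

variable {n : Type*} [Fintype n] [DecidableEq n]

lemma traceNorm_le (X : Matrix n n ℂ) (δ : ℝ) (hδ : 0 ≤ δ) (h : ∀ a b, ‖X a b‖ ≤ δ) :
    traceNorm X ≤ (Fintype.card n : ℝ) ^ 2 * δ := by
  set N : ℝ := (Fintype.card n : ℝ) with hN
  have hX := Matrix.isHermitian_conjTranspose_mul_self X
  have hev : ∀ i, 0 ≤ hX.eigenvalues i := fun i =>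
    (Matrix.posSemidef_conjTranspose_mul_self X).eigenvalues_nonneg i
  have htr : ∑ i, hX.eigenvalues i = ∑ a, ∑ b, ‖X a b‖ ^ 2 := by
    have h1 := hX.trace_eq_sum_eigenvalues
    have h2 : (X.conjTranspose * X).trace = ((∑ a, ∑ b, ‖X a b‖ ^ 2 : ℝ) : ℂ) := by
      unfold Matrix.trace
      simp only [Matrix.diag_apply, Matrix.mul_apply, Matrix.conjTranspose_apply]
      rw [Finset.sum_comm]
      push_cast
      refine Finset.sum_congr rfl fun a _ => Finset.sum_congr rfl fun b _ => ?_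
      rw [RCLike.star_def, mul_comm, Complex.mul_conj, Complex.normSq_eq_norm_sq]
      push_cast
      rfl
    rw [h2] at h1
    have h3 : ((∑ i, hX.eigenvalues i : ℝ) : ℂ) = ((∑ a, ∑ b, ‖X a b‖ ^ 2 : ℝ) : ℂ) := by
      rw [h1]
      push_cast
      rfl
    exact_mod_cast h3
  have hle : ∑ a, ∑ b, ‖X a b‖ ^ 2 ≤ N ^ 2 * δ ^ 2 := by
    calc ∑ a, ∑ b, ‖X a b‖ ^ 2 ≤ ∑ _a : n, ∑ _b : n, δ ^ 2 := by
          refine Finset.sum_le_sum fun a _ => Finset.sum_le_sum fun b _ => ?_
          exact pow_le_pow_left₀ (norm_nonneg _) (h a b) 2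
      _ = N ^ 2 * δ ^ 2 := by simp [hN]; ring
  have hsq : (traceNorm X) ^ 2 ≤ N * (N ^ 2 * δ ^ 2) := by
    unfold traceNorm
    calc (∑ i, Real.sqrt (hX.eigenvalues i)) ^ 2
        ≤ (Finset.univ : Finset n).card * ∑ i, (Real.sqrt (hX.eigenvalues i)) ^ 2 :=
          sq_sum_le_card_mul_sum_sq
      _ = N * ∑ i, hX.eigenvalues i := by
          rw [Finset.card_univ]
          congr 1
          exact Finset.sum_congr rfl fun i _ => Real.sq_sqrt (hev i)
      _ ≤ N * (N ^ 2 * δ ^ 2) := by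
          rw [htr]
          exact mul_le_mul_of_nonneg_left hle (Nat.cast_nonneg _)
  by_cases hn : Fintype.card n = 0
  · have h0 : traceNorm X = 0 := by
      unfold traceNorm
      apply Finset.sum_eq_zero
      intro i _
      exact absurd (Fintype.card_eq_zero_iff.mp hn) (fun he => he.false i)
    rw [h0]
    positivity
  · have hN1 : 1 ≤ N := by
      rw [hN]
      exact_mod_cast Nat.one_le_iff_ne_zero.mpr hn
    apply le_of_sq_le_sq _ (by positivity)
    refine hsq.trans ?_
    have : N * (N ^ 2 * δ ^ 2) = N ^ 3 * δ ^ 2 := by ring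
    rw [this]
    have h5 : (N ^ 2 * δ) ^ 2 = N ^ 4 * δ ^ 2 := by ring
    rw [h5]
    exact mul_le_mul_of_nonneg_right (pow_le_pow_right₀ hN1 (by norm_num)) (sq_nonneg _)

end tracenorm

end Pool.Agent.H4R2
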